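import Pool.Agent.Q136.ZP.Lin

set_option autoImplicit false

/-!
# The number of integral points of an algebraic set of dimension at most `m` in a box
-/

namespace Pool.Agent.Q136.ZP

open Finset MvPolynomial

/-- substitution of a constant for the first variable -/
noncomputable def slice {D : ℕ} (v : ℚ) (P : MvPolynomial (Fin (D + 1)) ℚ) :
    MvPolynomial (Fin D) ℚ :=
  Polynomial.eval (C v) (finSuccEquiv ℚ D P)

theorem eval_slice {D : ℕ} (v : ℚ) (t : Fin D → ℚ) (P : MvPolynomial (Fin (D + 1)) ℚ) :
    eval t (slice v P) = eval (Fin.cons v t : Fin (D + 1) → ℚ) P := by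
  rw [eval_eq_eval_mv_eval', slice, Polynomial.eval_map, ← Polynomial.eval₂_at_apply, eval_C]

theorem degreeOf_slice {D : ℕ} (v : ℚ) (P : MvPolynomial (Fin (D + 1)) ℚ) (d : ℕ)
    (hP : ∀ i, degreeOf i P ≤ d) (j : Fin D) : degreeOf j (slice v P) ≤ d := by
  rw [slice, Polynomial.eval_eq_sum_range]
  refine (degreeOf_sum_le _ _ _).trans (Finset.sup_le fun i _ => ?_)
  have h1 : (C v : MvPolynomial (Fin D) ℚ) ^ i = C (v ^ i) := by rw [map_pow]
  rw [h1, mul_comm]
  exact (degreeOf_C_mul_le _ _ _).trans ((degreeOf_coeff_finSuccEquiv P j i).trans (hP _))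

/-- the constants for which the slice vanishes -/
theorem card_bad {D : ℕ} (P : MvPolynomial (Fin (D + 1)) ℚ) (hP : P ≠ 0) (d : ℕ)
    (hd : ∀ i, degreeOf i P ≤ d) (T : Finset ℤ) (hT : ∀ v ∈ T, slice (v : ℚ) P = 0) :
    T.card ≤ d := by
  classical
  have hP' : finSuccEquiv ℚ D P ≠ 0 := EmbeddingLike.map_ne_zero_iff.2 hP
  have hinj : Function.Injective (fun v : ℤ => (C (v : ℚ) : MvPolynomial (Fin D) ℚ)) := by
    intro a b h
    have := C_injective (Fin D) ℚ h
    exact_mod_cast this
  have h1 : (T.image (fun v : ℤ => (C (v : ℚ) : MvPolynomial (Fin D) ℚ))).card ≤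
      (finSuccEquiv ℚ D P).roots.toFinset.card := by
    apply Finset.card_le_card
    intro x hx
    obtain ⟨v, hv, rfl⟩ := Finset.mem_image.1 hx
    rw [Multiset.mem_toFinset, Polynomial.mem_roots hP']
    exact hT v hv
  rw [Finset.card_image_of_injective _ hinj] at h1
  calc T.card ≤ (finSuccEquiv ℚ D P).roots.toFinset.card := h1
    _ ≤ Multiset.card (finSuccEquiv ℚ D P).roots := Multiset.toFinset_card_le _
    _ ≤ (finSuccEquiv ℚ D P).natDegree := Polynomial.card_roots' _
    _ = degreeOf 0 P := natDegree_finSuccEquiv P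
    _ ≤ d := hd 0

/-- `P` depends only on the coordinates in `B` -/
def DependsOn {D : ℕ} (P : MvPolynomial (Fin D) ℚ) (B : Finset (Fin D)) : Prop :=
  ∀ x y : Fin D → ℚ, (∀ i ∈ B, x i = y i) → eval x P = eval y P

/-- The number of integral points in a box, if any `m + 1` coordinates satisfy a nontrivial
relation. -/
theorem count_dim (d : ℕ) : ∀ (D m : ℕ), ∃ C : ℕ,
    ∀ (P : {B : Finset (Fin D) // B.card = m + 1} → MvPolynomial (Fin D) ℚ),
      (∀ B, P B ≠ 0) → (∀ B, DependsOn (P B) B.1) → (∀ B i, degreeOf i (P B) ≤ d) →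
      ∀ (H : ℕ) (S : Finset (Fin D → ℤ)), (∀ k ∈ S, ∀ i, |k i| ≤ H) →
        (∀ k ∈ S, ∀ B, eval (fun i => (k i : ℚ)) (P B) = 0) →
        S.card ≤ C * (2 * H + 1) ^ m := by
  classical
  intro D
  induction D with
  | zero =>
    intro m
    refine ⟨1, fun P _ _ _ H S _ _ => ?_⟩
    have h1 : S.card ≤ 1 := Finset.card_le_one.2 fun a _ b _ => Subsingleton.elim a b
    exact h1.trans (by rw [one_mul]; exact Nat.one_le_pow _ _ (by omega))
  | succ D ih =>
    intro m
    obtain ⟨C₁, hC₁⟩ := ih (m - 1)
    obtain ⟨C₂, hC₂⟩ := ih m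
    let β := {B : Finset (Fin (D + 1)) // B.card = m + 1}
    refine ⟨C₁ + Fintype.card β * d * C₂, ?_⟩
    intro P hP0 hPB hPd H S hSH hS
    -- slices of `S`
    let tl : (Fin (D + 1) → ℤ) → (Fin D → ℤ) := fun k => Fin.tail k
    let sl : ℤ → Finset (Fin D → ℤ) := fun v => (S.filter fun k => k 0 = v).image tl
    have hsl : ∀ v, (S.filter fun k => k 0 = v).card = (sl v).card := by
      intro v
      refine (Finset.card_image_of_injOn ?_).symm
      intro k hk k' hk' h
      have h1 := (Finset.mem_filter.1 hk).2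
      have h2 := (Finset.mem_filter.1 hk').2
      rw [← Fin.cons_self_tail k, ← Fin.cons_self_tail k', h1, h2]
      exact congrArg _ h
    have hmem : ∀ v, ∀ t ∈ sl v, (Fin.cons v t : Fin (D + 1) → ℤ) ∈ S := by
      intro v t ht
      obtain ⟨k, hk, rfl⟩ := Finset.mem_image.1 ht
      obtain ⟨hkS, hk0⟩ := Finset.mem_filter.1 hk
      rw [← hk0]
      show (Fin.cons (k 0) (Fin.tail k) : Fin (D + 1) → ℤ) ∈ S
      rw [Fin.cons_self_tail]
      exact hkS
    have hslH : ∀ v, ∀ t ∈ sl v, ∀ i, |t i| ≤ H := by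
      intro v t ht i
      have := hSH _ (hmem v t ht) i.succ
      rwa [Fin.cons_succ] at this
    have heval : ∀ v, ∀ t ∈ sl v, ∀ B, eval (fun i => (t i : ℚ)) (slice (v : ℚ) (P B)) = 0 := by
      intro v t ht B
      rw [eval_slice, ← hS _ (hmem v t ht) B]
      congr 2
      funext i
      refine Fin.cases ?_ (fun j => ?_) i
      · simp
      · simp
    -- good constants
    let bad : ℤ → Prop := fun v => ∃ B : β, slice (v : ℚ) (P B) = 0
    have hgood : ∀ v, ¬ bad v → (sl v).card * (2 * H + 1) ≤ C₁ * (2 * H + 1) ^ m := by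
      intro v hv
      simp only [bad, not_exists] at hv
      rcases Nat.eq_zero_or_pos m with hm | hm
      · -- `m = 0`
        have h0 : sl v = ∅ := by
          rw [Finset.eq_empty_iff_forall_notMem]
          intro t ht
          let B : β := ⟨{0}, by simp [hm]⟩
          apply hv B
          have h1 := heval v t ht B
          refine MvPolynomial.funext fun x => ?_
          rw [map_zero, ← h1, eval_slice, eval_slice]
          refine hPB B _ _ fun i hi => ?_
          have : i = 0 := by simpa [B] using hi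
          subst this
          simp
        rw [h0]
        simp
      · let Q : {B : Finset (Fin D) // B.card = m - 1 + 1} → MvPolynomial (Fin D) ℚ :=
          fun B => slice (v : ℚ) (P ⟨insert 0 (B.1.map (Fin.succEmb D)), by
            rw [Finset.card_insert_of_notMem, Finset.card_map, B.2]
            · omega
            · intro h
              obtain ⟨j, -, hj⟩ := Finset.mem_map.1 h
              exact Fin.succ_ne_zero j hj⟩)
        have h1 := hC₁ Q (fun B => hv _) ?_ (fun B i => degreeOf_slice _ _ _ (hPd _) i) H (sl v)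
          (hslH v) (fun t ht B => heval v t ht _)
        · calc (sl v).card * (2 * H + 1) ≤ C₁ * (2 * H + 1) ^ (m - 1) * (2 * H + 1) :=
                Nat.mul_le_mul_right _ h1
            _ = C₁ * (2 * H + 1) ^ m := by
                rw [mul_assoc, ← pow_succ]
                congr 2
                omega
        · intro B x y hxy
          show eval x (slice _ _) = eval y (slice _ _)
          rw [eval_slice, eval_slice]
          refine hPB _ _ _ fun i hi => ?_
          rcases Finset.mem_insert.1 hi with rfl | hi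
          · simp
          · obtain ⟨j, hj, rfl⟩ := Finset.mem_map.1 hi
            simpa using hxy j hj
    have hall : ∀ v, (sl v).card ≤ C₂ * (2 * H + 1) ^ m := by
      intro v
      let Q : {B : Finset (Fin D) // B.card = m + 1} → MvPolynomial (Fin D) ℚ :=
        fun B => slice (v : ℚ) (P ⟨B.1.map (Fin.succEmb D), by rw [Finset.card_map, B.2]⟩)
      refine hC₂ Q ?_ ?_ (fun B i => degreeOf_slice _ _ _ (hPd _) i) H (sl v) (hslH v)
        (fun t ht B => heval v t ht _)
      · intro B h
        apply hP0 ⟨B.1.map (Fin.succEmb D), by rw [Finset.card_map, B.2]⟩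
        refine MvPolynomial.funext fun x => ?_
        rw [map_zero]
        have h1 : eval (Fin.tail x) (Q B) = 0 := by rw [h, map_zero]
        rw [← h1]
        show _ = eval (Fin.tail x) (slice _ _)
        rw [eval_slice]
        refine hPB _ _ _ fun i hi => ?_
        obtain ⟨j, hj, rfl⟩ := Finset.mem_map.1 hi
        simp [Fin.tail]
      · intro B x y hxy
        show eval x (slice _ _) = eval y (slice _ _)
        rw [eval_slice, eval_slice]
        refine hPB _ _ _ fun i hi => ?_
        obtain ⟨j, hj, rfl⟩ := Finset.mem_map.1 hi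
        simpa using hxy j hj
    -- the number of bad constants
    let I : Finset ℤ := Finset.Icc (-(H : ℤ)) H
    have hIcard : I.card = 2 * H + 1 := by
      simp only [I, Int.card_Icc]
      omega
    have hbadcard : (I.filter bad).card ≤ Fintype.card β * d := by
      have h1 : I.filter bad ⊆ (Finset.univ : Finset β).biUnion
          fun B => I.filter fun v : ℤ => slice (v : ℚ) (P B) = 0 := by
        intro v hv
        obtain ⟨hvI, B, hB⟩ := Finset.mem_filter.1 hv
        exact Finset.mem_biUnion.2 ⟨B, Finset.mem_univ _, Finset.mem_filter.2 ⟨hvI, hB⟩⟩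
      refine (Finset.card_le_card h1).trans (Finset.card_biUnion_le.trans ?_)
      calc ∑ B : β, (I.filter fun v : ℤ => slice (v : ℚ) (P B) = 0).card ≤ ∑ _B : β, d :=
            Finset.sum_le_sum fun B _ => card_bad (P B) (hP0 B) d (hPd B) _
              fun v hv => (Finset.mem_filter.1 hv).2
        _ = Fintype.card β * d := by rw [Finset.sum_const, Finset.card_univ, smul_eq_mul]
    have hScard : S.card = ∑ v ∈ I, (sl v).card := by
      rw [Finset.card_eq_sum_card_fiberwise (f := fun k => k 0) (t := I)]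
      · exact Finset.sum_congr rfl fun v _ => hsl v
      · intro k hk
        exact Finset.mem_coe.2 (Finset.mem_Icc.2 (abs_le.1 (hSH k hk 0)))
    have hsplit : ∑ v ∈ I, (sl v).card = ∑ v ∈ I.filter bad, (sl v).card +
        ∑ v ∈ I.filter (fun v => ¬ bad v), (sl v).card :=
      (Finset.sum_filter_add_sum_filter_not I bad _).symm
    have h1 : ∑ v ∈ I.filter bad, (sl v).card ≤ Fintype.card β * d * C₂ * (2 * H + 1) ^ m := by
      calc ∑ v ∈ I.filter bad, (sl v).card ≤ ∑ _v ∈ I.filter bad, C₂ * (2 * H + 1) ^ m :=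
            Finset.sum_le_sum fun v _ => hall v
        _ = (I.filter bad).card * (C₂ * (2 * H + 1) ^ m) := by rw [Finset.sum_const, smul_eq_mul]
        _ ≤ Fintype.card β * d * (C₂ * (2 * H + 1) ^ m) := Nat.mul_le_mul_right _ hbadcard
        _ = _ := by ring
    have h2 : (∑ v ∈ I.filter (fun v => ¬ bad v), (sl v).card) ≤ C₁ * (2 * H + 1) ^ m := by
      have hpos : 0 < 2 * H + 1 := by omega
      refine Nat.le_of_mul_le_mul_right ?_ hpos
      calc (∑ v ∈ I.filter (fun v => ¬ bad v), (sl v).card) * (2 * H + 1)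
          = ∑ v ∈ I.filter (fun v => ¬ bad v), (sl v).card * (2 * H + 1) := Finset.sum_mul _ _ _
        _ ≤ ∑ _v ∈ I.filter (fun v => ¬ bad v), C₁ * (2 * H + 1) ^ m :=
            Finset.sum_le_sum fun v hv => hgood v (Finset.mem_filter.1 hv).2
        _ = (I.filter (fun v => ¬ bad v)).card * (C₁ * (2 * H + 1) ^ m) := by
            rw [Finset.sum_const, smul_eq_mul]
        _ ≤ (2 * H + 1) * (C₁ * (2 * H + 1) ^ m) := by
            apply Nat.mul_le_mul_right
            rw [← hIcard]
            exact Finset.card_filter_le _ _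
        _ = _ := by ring
    rw [hScard, hsplit]
    calc _ ≤ Fintype.card β * d * C₂ * (2 * H + 1) ^ m + C₁ * (2 * H + 1) ^ m :=
          Nat.add_le_add h1 h2
      _ = (C₁ + Fintype.card β * d * C₂) * (2 * H + 1) ^ m := by ring

/-- the number of integral points in a box in the image of a polynomial map -/
theorem image_count {σ ι : Type} [Fintype σ] [Fintype ι] (Φ : ι → MvPolynomial σ ℚ) :
    ∃ C : ℕ, ∀ (H : ℕ) (S : Finset (ι → ℤ)), (∀ k ∈ S, ∀ i, |k i| ≤ H) →
      (∀ k ∈ S, ∃ x : σ → ℚ, ∀ i, (k i : ℚ) = eval x (Φ i)) →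
      S.card ≤ C * (2 * H + 1) ^ (Fintype.card σ) := by
  classical
  let D := Fintype.card ι
  let m := Fintype.card σ
  let e : ι ≃ Fin D := Fintype.equivFin ι
  have hdep : ∀ B : {B : Finset (Fin D) // B.card = m + 1}, ∃ F : MvPolynomial B.1 ℚ, F ≠ 0 ∧
      ∀ x : σ → ℚ, eval (fun i : B.1 => eval x (Φ (e.symm i))) F = 0 := by
    intro B
    exact alg_dep (by rw [Fintype.card_coe, B.2]; exact Nat.lt_succ_self _)
      (fun i : B.1 => Φ (e.symm i))
  choose F hF0 hF using hdep
  let P : {B : Finset (Fin D) // B.card = m + 1} → MvPolynomial (Fin D) ℚ :=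
    fun B => rename Subtype.val (F B)
  obtain ⟨d, hd⟩ : ∃ d : ℕ, ∀ B i, degreeOf i (P B) ≤ d :=
    ⟨∑ B, ∑ i, degreeOf i (P B), fun B i =>
      (Finset.single_le_sum (f := fun i => degreeOf i (P B)) (fun _ _ => Nat.zero_le _)
        (Finset.mem_univ i)).trans
      (Finset.single_le_sum (f := fun B => ∑ i, degreeOf i (P B)) (fun _ _ => Nat.zero_le _)
        (Finset.mem_univ B))⟩
  obtain ⟨C, hC⟩ := count_dim d D m
  refine ⟨C, fun H S hSH hS => ?_⟩
  let S' : Finset (Fin D → ℤ) := S.image fun k => k ∘ e.symm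
  have hcard : S'.card = S.card := by
    apply Finset.card_image_of_injective
    intro k k' h
    funext i
    have := congrFun h (e i)
    simpa using this
  rw [← hcard]
  refine hC P ?_ ?_ hd H S' ?_ ?_
  · intro B h
    exact hF0 B (rename_injective _ Subtype.val_injective (by rw [map_zero]; exact h))
  · intro B x y hxy
    show eval x (rename _ _) = eval y (rename _ _)
    rw [eval_rename, eval_rename]
    congr 2
    funext i
    exact hxy i i.2
  · intro k hk i
    obtain ⟨k', hk', rfl⟩ := Finset.mem_image.1 hk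
    exact hSH k' hk' _
  · intro k hk B
    obtain ⟨k', hk', rfl⟩ := Finset.mem_image.1 hk
    obtain ⟨x, hx⟩ := hS k' hk'
    show eval _ (rename _ _) = 0
    rw [eval_rename, ← hF B x]
    congr 2
    funext i
    exact hx _

end Pool.Agent.Q136.ZP
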