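import Pool.Agent.Q136.ZP.Pt
import Pool.Agent.Q136.ZP.Count

set_option autoImplicit false

/-!
# Subvarieties of tori and their pullbacks under monomial maps
-/

namespace Pool.Agent.Q136.ZP

open Finset Module H56R3.ZP

/-- The comorphism `y_i ↦ g_i x^{e_i}` of the map `G_m^n → G_m^N`, `x ↦ (g_i x^{e_i})`. -/
noncomputable def comorphism {N n : ℕ} (e : Fin N → Fin n → ℤ) (g : Fin N → ℂˣ) :
    Laurent N →ₐ[ℂ] Laurent n :=
  AddMonoidAlgebra.lift ℂ (Laurent n) (Fin N → ℤ)
    { toFun := fun m => algebraMap ℂ (Laurent n) (∏ i, (g i : ℂ) ^ (Multiplicative.toAdd m) i) *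
        mono (∑ i, (Multiplicative.toAdd m) i • e i)
      map_one' := by
        simp only [toAdd_one, Pi.zero_apply, zpow_zero, Finset.prod_const_one, map_one, one_mul,
          zero_smul, Finset.sum_const_zero]
        rfl
      map_mul' := by
        intro a b
        have h1 : (∏ i, (g i : ℂ) ^ (Multiplicative.toAdd (a * b)) i) =
            (∏ i, (g i : ℂ) ^ (Multiplicative.toAdd a) i) *
            ∏ i, (g i : ℂ) ^ (Multiplicative.toAdd b) i := by
          rw [← Finset.prod_mul_distrib]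
          refine Finset.prod_congr rfl fun i _ => ?_
          rw [toAdd_mul, Pi.add_apply, zpow_add₀ (g i).ne_zero]
        have h2 : ∑ i, (Multiplicative.toAdd (a * b)) i • e i =
            ∑ i, (Multiplicative.toAdd a) i • e i + ∑ i, (Multiplicative.toAdd b) i • e i := by
          rw [← Finset.sum_add_distrib]
          refine Finset.sum_congr rfl fun i _ => ?_
          rw [toAdd_mul, Pi.add_apply, add_smul]
        rw [h1, h2, map_mul, mono_add]
        ring }

theorem comorphism_single {N n : ℕ} (e : Fin N → Fin n → ℤ) (g : Fin N → ℂˣ) (i : Fin N) :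
    comorphism e g (mono (Pi.single i 1)) = algebraMap ℂ (Laurent n) (g i) * mono (e i) := by
  classical
  unfold comorphism
  rw [show (mono (Pi.single i 1) : Laurent N) = AddMonoidAlgebra.single (Pi.single i 1) 1 from rfl,
    AddMonoidAlgebra.lift_single, one_smul]
  simp only [MonoidHom.coe_mk, OneHom.coe_mk, toAdd_ofAdd]
  congr 2
  · rw [Finset.prod_eq_single i]
    · simp
    · intro j _ hj
      simp [Pi.single_eq_of_ne hj]
    · intro h
      exact absurd (Finset.mem_univ i) h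
  · rw [Finset.sum_eq_single i]
    · simp
    · intro j _ hj
      simp [Pi.single_eq_of_ne hj]
    · intro h
      exact absurd (Finset.mem_univ i) h

/-- relations between the coordinates on an irreducible subvariety -/
theorem exists_rel {N M : ℕ} (I : Ideal (Laurent N)) (hI : I.IsPrime)
    (hdim : Algebra.trdeg ℂ (Laurent N ⧸ I) ≤ (M : Cardinal)) (B : Finset (Fin N))
    (hB : B.card = M + 1) : ∃ F : MvPolynomial B ℂ, F ≠ 0 ∧
      MvPolynomial.aeval (fun i : B => (mono (Pi.single (i : Fin N) 1) : Laurent N)) F ∈ I := by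
  have hdom : IsDomain (Laurent N ⧸ I) := Ideal.Quotient.isDomain I
  have h1 : ¬ AlgebraicIndependent ℂ
      (fun i : B => Ideal.Quotient.mkₐ ℂ I (mono (Pi.single (i : Fin N) 1))) := by
    intro hind
    have h2 := hind.lift_cardinalMk_le_trdeg
    simp only [Cardinal.mk_fintype, Fintype.card_coe, hB, Cardinal.lift_natCast,
      Cardinal.lift_uzero] at h2
    have h3 := h2.trans hdim
    have h4 : M + 1 ≤ M := by exact_mod_cast h3
    omega
  unfold AlgebraicIndependent at h1
  rw [injective_iff_map_eq_zero] at h1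
  push Not at h1
  obtain ⟨F, hF, hF0⟩ := h1
  refine ⟨F, hF0, ?_⟩
  rw [← Ideal.Quotient.eq_zero_iff_mem]
  have h5 : (Ideal.Quotient.mkₐ ℂ I) (MvPolynomial.aeval
      (fun i : B => (mono (Pi.single (i : Fin N) 1) : Laurent N)) F) = 0 := by
    rw [MvPolynomial.comp_aeval_apply]
    exact hF
  exact h5

/-- **Geometric form** of the condition that a closed subset of `G_m^n` with ideal `J`, regarded as
a set of codimension `c`, has no atypical intersection: for every subgroup `Λ` of `ℤ^n`, every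
`χ : Λ → ℂ` with values in the division hull of the group generated by `γ₀` and the algebraic
units, and every irreducible closed subvariety `W` (a prime ideal of the Laurent polynomial ring)
contained in `V(J)` and in `Z = {x : x^m = χ m, m ∈ Λ}`: `dim W + c + rank Λ ≤ n`, that is
`dim W ≤ dim Z - c`. -/
def NoAtypical {r : ℕ} (γ₀ : Fin r → ℂˣ) (c : ℕ) {n : ℕ} (J : Ideal (Laurent n)) : Prop :=
  ∀ (Λ : Submodule ℤ (Fin n → ℤ)) (χ : Λ → ℂ), (∀ m, Allowed γ₀ (χ m)) →
    ∀ W : Ideal (Laurent n), W.IsPrime → J ≤ W →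
      (∀ m : Λ, mono (m : Fin n → ℤ) - algebraMap ℂ (Laurent n) (χ m) ∈ W) →
        Algebra.trdeg ℂ (Laurent n ⧸ W) + (c : Cardinal) + (finrank ℤ Λ : Cardinal) ≤
          (n : Cardinal)

theorem geo_aux {N n M r s : ℕ} (I : Ideal (Laurent N))
    (F : (B : {B : Finset (Fin N) // B.card = M + 1}) → MvPolynomial B.1 ℂ)
    (hFI : ∀ B, MvPolynomial.aeval
      (fun i : B.1 => (mono (Pi.single (i : Fin N) 1) : Laurent N)) (F B) ∈ I)
    (e : Fin N → Fin n → ℤ) (γ₀ : Fin r → ℂˣ) (g : Fin N → ℂˣ)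
    (hg : ∀ (L : Type) [Field L] [Algebra ℂ L] (P : Fin n → L), (∀ l, P l ≠ 0) →
      (∀ B, MvPolynomial.aeval (fun i : B.1 => algebraMap ℂ L (g i) * mon P (e i)) (F B) = 0) →
      ∀ (Λ : Submodule ℤ (Fin n → ℤ)) (χ : Λ → ℂ), (∀ m, Allowed γ₀ (χ m)) →
      (∀ m : Λ, mon P (m : Fin n → ℤ) = algebraMap ℂ L (χ m)) →
      ∀ (τ : Type) [Fintype τ] (b : τ → Fin n), AlgebraicIndependent ℂ (fun t => P (b t)) →
        Fintype.card τ + s + finrank ℤ Λ ≤ n)
    (Λ : Submodule ℤ (Fin n → ℤ)) (χ : Λ → ℂ) (hχ : ∀ m, Allowed γ₀ (χ m))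
    (p : Ideal (Laurent n)) (hp : p.IsPrime) (L : Type) [Field L] [Algebra (Laurent n ⧸ p) L]
    [IsFractionRing (Laurent n ⧸ p) L] (hV : I.map (comorphism e g) ≤ p)
    (hZ : ∀ m : Λ, mono (m : Fin n → ℤ) - algebraMap ℂ (Laurent n) (χ m) ∈ p) :
    Algebra.trdeg ℂ (Laurent n ⧸ p) + (s : Cardinal) + (finrank ℤ Λ : Cardinal) ≤
      (n : Cardinal) := by
  classical
  have hdom : IsDomain (Laurent n ⧸ p) := Ideal.Quotient.isDomain p
  let : Algebra ℂ L := ((algebraMap (Laurent n ⧸ p) L).comp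
    (algebraMap ℂ (Laurent n ⧸ p))).toAlgebra
  let φ : Laurent n →ₐ[ℂ] L :=
    { (algebraMap (Laurent n ⧸ p) L).comp (Ideal.Quotient.mk p) with
      commutes' := fun z => rfl }
  have hker : ∀ f ∈ p, φ f = 0 := by
    intro f hf
    show algebraMap (Laurent n ⧸ p) L (Ideal.Quotient.mk p f) = 0
    rw [Ideal.Quotient.eq_zero_iff_mem.2 hf, map_zero]
  have hP : ∀ l, gen (φ : Laurent n →+* L) l ≠ 0 := fun l => map_mono_ne _ _
  have hmon : ∀ m, φ (mono m) = mon (gen (φ : Laurent n →+* L)) m := fun m =>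
    map_mono (φ : Laurent n →+* L) m
  -- transcendence basis
  have halg := isAlgebraic_quot p
  have hinjC : Function.Injective (algebraMap ℂ (Laurent n ⧸ p)) :=
    (algebraMap ℂ (Laurent n ⧸ p)).injective
  have hfaith : FaithfulSMul ℂ (Laurent n ⧸ p) :=
    (faithfulSMul_iff_algebraMap_injective ℂ (Laurent n ⧸ p)).2 hinjC
  obtain ⟨u, hu, hub⟩ := exists_isTranscendenceBasis_subset (R := ℂ) (A := Laurent n ⧸ p)
    (Set.range (fun l : Fin n => Ideal.Quotient.mk p (mono (Pi.single l 1))))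
  have hufin : u.Finite := (Set.finite_range _).subset hu
  have : Fintype u := hufin.fintype
  have hcard : (Fintype.card u : Cardinal) = Algebra.trdeg ℂ (Laurent n ⧸ p) := by
    rw [← hub.cardinalMk_eq_trdeg, Cardinal.mk_fintype]
  choose b hb using fun t : u => hu t.2
  have hind : AlgebraicIndependent ℂ (fun t : u => gen (φ : Laurent n →+* L) (b t)) := by
    have h1 : AlgebraicIndependent ℂ (fun t : u => (t : Laurent n ⧸ p)) := hub.1
    let ψ : (Laurent n ⧸ p) →ₐ[ℂ] L :=
      { algebraMap (Laurent n ⧸ p) L with commutes' := fun z => rfl }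
    have h3 := h1.map' (f := ψ) (IsFractionRing.injective (Laurent n ⧸ p) L)
    have h4 : (fun t : u => gen (φ : Laurent n →+* L) (b t)) =
        ψ ∘ (fun t : u => (t : Laurent n ⧸ p)) := by
      funext t
      show algebraMap (Laurent n ⧸ p) L (Ideal.Quotient.mk p (mono (Pi.single (b t) 1))) =
        algebraMap (Laurent n ⧸ p) L t
      rw [← hb t]
    rw [h4]
    exact h3
  have hmain := hg L (gen (φ : Laurent n →+* L)) hP ?_ Λ χ hχ ?_ u b hind
  · rw [← hcard]
    exact_mod_cast hmain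
  · intro B
    have h1 := hker _ (hV (Ideal.mem_map_of_mem _ (hFI B)))
    rw [← h1]
    rw [MvPolynomial.aeval_def, MvPolynomial.aeval_def, ← AlgHom.comp_apply]
    have h2 := MvPolynomial.hom_eval₂ (F B) (algebraMap ℂ (Laurent N))
      ((φ.comp (comorphism e g)) : Laurent N →+* L)
      (fun i : B.1 => (mono (Pi.single (i : Fin N) 1) : Laurent N))
    have h3 : ((φ.comp (comorphism e g)) : Laurent N →+* L).comp (algebraMap ℂ (Laurent N)) =
        algebraMap ℂ L := (φ.comp (comorphism e g)).comp_algebraMap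
    rw [h3] at h2
    refine Eq.trans ?_ h2.symm
    congr 1
    funext i
    show algebraMap ℂ L (g i) * mon (gen (φ : Laurent n →+* L)) (e i) =
      φ (comorphism e g (mono (Pi.single (i : Fin N) 1)))
    rw [comorphism_single, map_mul, hmon, AlgHom.commutes]
  · intro m
    have h1 := hker _ (hZ m)
    rw [map_sub, sub_eq_zero, hmon, AlgHom.commutes] at h1
    exact h1

/-- No nontrivial product of powers of the `γ l` is an algebraic unit. -/
def IndepModUnits {R : ℕ} (γ : Fin R → ℂˣ) : Prop :=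
  ∀ x : Fin R → ℤ, AlgUnit ((∏ l, γ l ^ x l : ℂˣ) : ℂ) → x = 0

/-- A finite union of images of polynomial maps contains all exceptional exponents. -/
theorem main_geo {N n M r R : ℕ} (I : Ideal (Laurent N)) (hI : I.IsPrime)
    (hdim : Algebra.trdeg ℂ (Laurent N ⧸ I) ≤ (M : Cardinal))
    (e : Fin N → Fin n → ℤ) (γ₀ : Fin r → ℂˣ) (γ : Fin R → ℂˣ) (hγ : IndepModUnits γ)
    (s c : ℕ) (hc : c = min (s - 1) n) :
    ∃ (ι : Type) (_ : Fintype ι) (Φ : ι → Fin R × Fin N →
        MvPolynomial (Fin (R * (M + c) + (c + r) * (n - c))) ℚ),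
      ∀ (k : Fin R → Fin N → ℤ) (u : Fin N → ℂˣ), (∀ i, AlgUnit (u i : ℂ)) →
        ¬ NoAtypical γ₀ s (I.map (comorphism e (fun i => u i * ∏ l, γ l ^ k l i))) →
        ∃ (t : ι) (x : Fin (R * (M + c) + (c + r) * (n - c)) → ℚ),
          ∀ l i, (k l i : ℚ) = MvPolynomial.eval x (Φ t (l, i)) := by
  classical
  obtain ⟨O, lg, hlg, Binv, hBinv⟩ := exists_logs γ (fun x h1 h2 => hγ x ⟨h1, h2⟩)
  choose F hF0 hFI using fun B : {B : Finset (Fin N) // B.card = M + 1} =>
    exists_rel I hI hdim B.1 B.2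
  obtain ⟨a, b, hmain⟩ := main_point F hF0 e O lg hlg γ₀ s c hc
  have hcard : ∀ T : {T : Finset (Fin n) // T.card = c},
      Fintype.card (Var R r n M T.1) = R * (M + c) + (c + r) * (n - c) := by
    intro T
    rw [card_var, T.2]
    ring
  let eq : ∀ T : {T : Finset (Fin n) // T.card = c},
      Var R r n M T.1 ≃ Fin (R * (M + c) + (c + r) * (n - c)) := fun T =>
    Fintype.equivFinOfCardEq (hcard T)
  let w : Fin R → Fin r → ℚ := fun j l => lgx (lg j) (γ₀ l : ℂ)
  let Φ : {T : Finset (Fin n) // T.card = c} × (Fin R → Ties F) → Fin R × Fin N →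
      MvPolynomial (Fin (R * (M + c) + (c + r) * (n - c))) ℚ := fun t li =>
    ∑ j, MvPolynomial.C (Binv li.1 j) * MvPolynomial.rename (eq t.1)
      (Kp t.1.1 w e (fun j => a j (t.2 j)) (fun j => b j (t.2 j)) (j, li.2))
  refine ⟨{T : Finset (Fin n) // T.card = c} × (Fin R → Ties F), inferInstance, Φ, ?_⟩
  intro k u hu hbad
  have hpt : ∃ (L : Type) (_ : Field L) (_ : Algebra ℂ L) (P : Fin n → L)
        (Λ : Submodule ℤ (Fin n → ℤ)) (χ : Λ → ℂ) (τ : Type) (_ : Fintype τ) (b : τ → Fin n),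
        (∀ l, P l ≠ 0) ∧
        (∀ B, MvPolynomial.aeval (fun i : B.1 => algebraMap ℂ L
          ((u i * ∏ l, γ l ^ k l i : ℂˣ) : ℂ) * mon P (e i)) (F B) = 0) ∧
        (∀ m, Allowed γ₀ (χ m)) ∧
        (∀ m : Λ, mon P (m : Fin n → ℤ) = algebraMap ℂ L (χ m)) ∧
        AlgebraicIndependent ℂ (fun t => P (b t)) ∧
        n < Fintype.card τ + s + finrank ℤ Λ := by
    by_contra hno
    apply hbad
    intro Λ χ hχ W hW hJ hZ
    have hdom : IsDomain (Laurent n ⧸ W) := Ideal.Quotient.isDomain W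
    refine geo_aux I F hFI e γ₀ (fun i => u i * ∏ l, γ l ^ k l i) ?_ Λ χ hχ W hW
      (FractionRing (Laurent n ⧸ W)) hJ hZ
    intro L _ _ P hP hFP Λ' χ' hχ' hΛ' τ _ b' hb'
    by_contra hlt
    exact hno ⟨L, inferInstance, inferInstance, P, Λ', χ', τ, inferInstance, b', hP, hFP, hχ',
      hΛ', hb', not_le.1 hlt⟩
  obtain ⟨T, ρ, x, hx⟩ := hmain (fun i => u i * ∏ l, γ l ^ k l i) hpt
  refine ⟨(T, ρ), x ∘ (eq T).symm, fun l i => ?_⟩
  have h1 : ∀ j, MvPolynomial.eval (x ∘ (eq T).symm) (MvPolynomial.rename (eq T)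
      (Kp T.1 w e (fun j => a j (ρ j)) (fun j => b j (ρ j)) (j, i))) =
      ∑ l, (k l i : ℚ) * lg j (Additive.ofMul (γ l)) := by
    intro j
    rw [MvPolynomial.eval_rename]
    have h2 : (x ∘ (eq T).symm) ∘ (eq T) = x := by
      funext y
      simp
    rw [h2, ← hx (j, i)]
    show lg j (Additive.ofMul (u i * ∏ l, γ l ^ k l i)) = _
    have h3 : lg j (Additive.ofMul (u i)) = 0 :=
      hlg j (u i) ((hu i).val (u i).ne_zero (O j))
    rw [ofMul_mul, map_add, h3, zero_add, lg_prod]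
  show (k l i : ℚ) = MvPolynomial.eval _ (∑ j, MvPolynomial.C (Binv l j) *
    MvPolynomial.rename (eq T) (Kp T.1 w e (fun j => a j (ρ j)) (fun j => b j (ρ j)) (j, i)))
  rw [map_sum]
  have h4 : ∑ j, MvPolynomial.eval (x ∘ (eq T).symm) (MvPolynomial.C (Binv l j) *
      MvPolynomial.rename (eq T) (Kp T.1 w e (fun j => a j (ρ j)) (fun j => b j (ρ j)) (j, i))) =
      ∑ l', (Binv * (Matrix.of fun j l => lg j (Additive.ofMul (γ l)))) l l' * (k l' i : ℚ) := by
    have h5 : ∀ j, MvPolynomial.eval (x ∘ (eq T).symm) (MvPolynomial.C (Binv l j) *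
        MvPolynomial.rename (eq T)
          (Kp T.1 w e (fun j => a j (ρ j)) (fun j => b j (ρ j)) (j, i))) =
        ∑ l', Binv l j * ((k l' i : ℚ) * lg j (Additive.ofMul (γ l'))) := by
      intro j
      rw [map_mul, MvPolynomial.eval_C, h1 j, Finset.mul_sum]
    rw [Finset.sum_congr rfl fun j _ => h5 j, Finset.sum_comm]
    refine Finset.sum_congr rfl fun l' _ => ?_
    rw [Matrix.mul_apply, Finset.sum_mul]
    refine Finset.sum_congr rfl fun j _ => ?_
    rw [Matrix.of_apply]
    ring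
  rw [h4, hBinv, Finset.sum_eq_single l]
  · rw [Matrix.one_apply_eq, one_mul]
  · intro l' _ hl'
    rw [Matrix.one_apply_ne (Ne.symm hl'), zero_mul]
  · intro h
    exact absurd (Finset.mem_univ l) h

end Pool.Agent.Q136.ZP
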