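import Mathlib

set_option autoImplicit false

/-!
# Linear algebra, algebraic dependence and counting of zeros
-/

namespace Pool.Agent.Q136.ZP

open Finset Module

/-- coordinates on a subspace of `ℚ^ι` -/
theorem select {ι : Type} [Fintype ι] [DecidableEq ι] (U : Submodule ℚ (ι → ℚ)) :
    ∃ T : Finset ι, T.card = finrank ℚ U ∧
      (∀ h : ι, ∃ q : ι → ℚ, ∀ u ∈ U, u h = ∑ t ∈ T, q t * u t) ∧
      ∀ w : ι → ℚ, ∃ u ∈ U, ∀ t ∈ T, u t = w t := by
  classical
  let v : ι → Dual ℚ U := fun h => (LinearMap.proj h).comp U.subtype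
  obtain ⟨κ, a, ha, hspan, hli⟩ := exists_linearIndependent' ℚ v
  have : Finite κ := Finite.of_injective a ha
  have : Fintype κ := Fintype.ofFinite κ
  have hrep : ∀ h : ι, ∃ q : κ → ℚ, ∀ u ∈ U, u h = ∑ t, q t * u (a t) := by
    intro h
    have h1 : v h ∈ Submodule.span ℚ (Set.range (v ∘ a)) := by
      rw [hspan]
      exact Submodule.subset_span ⟨h, rfl⟩
    obtain ⟨q, hq⟩ := (Submodule.mem_span_range_iff_exists_fun ℚ).1 h1
    refine ⟨q, fun u hu => ?_⟩
    have h2 := LinearMap.congr_fun hq ⟨u, hu⟩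
    simp only [LinearMap.coe_sum, Finset.sum_apply, LinearMap.smul_apply, Function.comp_apply,
      smul_eq_mul, v, LinearMap.comp_apply, LinearMap.proj_apply, Submodule.subtype_apply] at h2
    exact h2.symm
  let F : U →ₗ[ℚ] (κ → ℚ) := LinearMap.pi fun t => v (a t)
  have hF : Function.Injective F := by
    rw [← LinearMap.ker_eq_bot, LinearMap.ker_eq_bot']
    intro u hu
    ext h
    obtain ⟨q, hq⟩ := hrep h
    rw [hq u u.2]
    have h3 : ∀ t, (u : ι → ℚ) (a t) = 0 := fun t => congrFun hu t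
    simp [h3]
  have hcard : Fintype.card κ = finrank ℚ U := by
    apply le_antisymm
    · have := hli.fintype_card_le_finrank
      rwa [Subspace.dual_finrank_eq] at this
    · have := LinearMap.finrank_le_finrank_of_injective hF
      rwa [Module.finrank_fintype_fun_eq_card] at this
  have hsurj : Function.Surjective F :=
    (LinearMap.injective_iff_surjective_of_finrank_eq_finrank (by
      rw [Module.finrank_fintype_fun_eq_card, hcard])).1 hF
  refine ⟨Finset.univ.image a, ?_, ?_, ?_⟩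
  · rw [Finset.card_image_of_injective _ ha, Finset.card_univ, hcard]
  · intro h
    obtain ⟨q, hq⟩ := hrep h
    refine ⟨fun i => ∑ t, if a t = i then q t else 0, fun u hu => ?_⟩
    rw [hq u hu, Finset.sum_image (fun x _ y _ hxy => ha hxy)]
    refine Finset.sum_congr rfl fun t _ => ?_
    congr 1
    show q t = ∑ t', if a t' = a t then q t' else 0
    rw [Finset.sum_eq_single t]
    · simp
    · intro t' _ ht'
      rw [if_neg fun h => ht' (ha h)]
    · intro h
      exact absurd (Finset.mem_univ t) h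
  · intro w
    obtain ⟨u, hu⟩ := hsurj (fun t => w (a t))
    refine ⟨u, u.2, ?_⟩
    intro t ht
    obtain ⟨s, -, rfl⟩ := Finset.mem_image.1 ht
    exact congrFun hu s

/-- coordinates on a subspace of dimension at most `c` -/
theorem select_le {ι : Type} [Fintype ι] [DecidableEq ι] (U : Submodule ℚ (ι → ℚ)) (c : ℕ)
    (hU : finrank ℚ U ≤ c) (hc : c ≤ Fintype.card ι) :
    ∃ T : Finset ι, T.card = c ∧ ∃ q : ι → ι → ℚ, ∀ h, ∀ u ∈ U, u h = ∑ t ∈ T, q h t * u t := by
  classical
  obtain ⟨T₀, hT₀, hq, -⟩ := select U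
  choose q hq using hq
  obtain ⟨T, hT, hTc⟩ := Finset.exists_superset_card_eq (s := T₀) (n := c) (by omega) hc
  refine ⟨T, hTc, fun h t => if t ∈ T₀ then q h t else 0, fun h u hu => ?_⟩
  rw [hq h u hu, ← Finset.sum_subset hT]
  · refine Finset.sum_congr rfl fun t ht => ?_
    simp only [if_pos ht]
  · intro t _ ht
    simp only [if_neg ht, zero_mul]

/-- the solutions of a homogeneous system -/
def sol {β : Type} {N : ℕ} (d : β → Fin N → ℚ) : Submodule ℚ (Fin N → ℚ) where
  carrier := {Y | ∀ B, ∑ i, d B i * Y i = 0}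
  zero_mem' := by intro B; simp
  add_mem' := by
    intro a b ha hb B
    simp only [Pi.add_apply, mul_add, Finset.sum_add_distrib]
    rw [ha B, hb B, add_zero]
  smul_mem' := by
    intro x a ha B
    have : ∑ i, d B i * (x • a) i = x * ∑ i, d B i * a i := by
      rw [Finset.mul_sum]
      refine Finset.sum_congr rfl fun i _ => ?_
      rw [Pi.smul_apply, smul_eq_mul]
      ring
    rw [this, ha B, mul_zero]

/-- if every set of `M + 1` coordinates supports a nontrivial equation, the solution space has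
dimension at most `M` -/
theorem finrank_sol {N M : ℕ} (d : {B : Finset (Fin N) // B.card = M + 1} → Fin N → ℚ)
    (hd : ∀ B, d B ≠ 0) (hB : ∀ B, ∀ i ∉ B.1, d B i = 0) : finrank ℚ (sol d) ≤ M := by
  classical
  by_contra hcon
  push Not at hcon
  obtain ⟨T, hT, -, hw⟩ := select (sol d)
  obtain ⟨B, hBT, hBc⟩ := Finset.exists_subset_card_eq (s := T) (n := M + 1) (by omega)
  obtain ⟨u, hu, hut⟩ := hw (d ⟨B, hBc⟩)
  have h1 := hu ⟨B, hBc⟩
  have h2 : ∑ i, d ⟨B, hBc⟩ i * u i = ∑ i, d ⟨B, hBc⟩ i * d ⟨B, hBc⟩ i := by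
    refine Finset.sum_congr rfl fun i _ => ?_
    by_cases hi : i ∈ B
    · rw [hut i (hBT hi)]
    · rw [hB ⟨B, hBc⟩ i hi, zero_mul, zero_mul]
  rw [h2] at h1
  rw [Finset.sum_eq_zero_iff_of_nonneg (fun i _ => mul_self_nonneg _)] at h1
  apply hd ⟨B, hBc⟩
  funext i
  exact mul_self_eq_zero.1 (h1 i (Finset.mem_univ i))

/-- parametrization of the solutions of an inhomogeneous system -/
theorem param_sol {β : Type} {N M : ℕ} (d : β → Fin N → ℚ) (hd : finrank ℚ (sol d) ≤ M)
    (r : β → ℚ) : ∃ (a : Fin N → ℚ) (b : Fin M → Fin N → ℚ), ∀ Y : Fin N → ℚ,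
      (∀ B, ∑ i, d B i * Y i = r B) → ∃ s : Fin M → ℚ, ∀ i, Y i = a i + ∑ l, s l * b l i := by
  classical
  by_cases hex : ∃ Y₀ : Fin N → ℚ, ∀ B, ∑ i, d B i * Y₀ i = r B
  swap
  · exact ⟨0, 0, fun Y hY => absurd ⟨Y, hY⟩ hex⟩
  obtain ⟨Y₀, hY₀⟩ := hex
  let bs := Module.finBasis ℚ (sol d)
  let em : Fin (finrank ℚ (sol d)) → Fin M := Fin.castLE hd
  have hem : Function.Injective em := Fin.castLE_injective hd
  refine ⟨Y₀, fun l => Function.extend em (fun i => ((bs i : sol d) : Fin N → ℚ)) 0 l, ?_⟩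
  intro Y hY
  have hmem : Y - Y₀ ∈ sol d := by
    intro B
    have : ∑ i, d B i * (Y - Y₀) i = ∑ i, d B i * Y i - ∑ i, d B i * Y₀ i := by
      rw [← Finset.sum_sub_distrib]
      refine Finset.sum_congr rfl fun i _ => ?_
      rw [Pi.sub_apply]
      ring
    rw [this, hY, hY₀, sub_self]
  refine ⟨fun l => Function.extend em (fun i => bs.repr ⟨Y - Y₀, hmem⟩ i) 0 l, fun i => ?_⟩
  have h1 := bs.sum_repr ⟨Y - Y₀, hmem⟩
  have h2 : ∑ j, bs.repr ⟨Y - Y₀, hmem⟩ j * ((bs j : sol d) : Fin N → ℚ) i = Y i - Y₀ i := by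
    have h3 : ((∑ j, bs.repr ⟨Y - Y₀, hmem⟩ j • bs j : sol d) : Fin N → ℚ) i = (Y - Y₀) i := by
      rw [h1]
    rw [Submodule.coe_sum, Finset.sum_apply] at h3
    exact h3
  rw [← Fintype.sum_of_injective em hem
    (fun j => bs.repr ⟨Y - Y₀, hmem⟩ j * ((bs j : sol d) : Fin N → ℚ) i) _ ?_ ?_, h2]
  · ring
  · intro l hl
    simp only
    rw [Function.extend_apply' _ _ _ (by rintro ⟨x, hx⟩; exact hl ⟨x, hx⟩)]
    simp
  · intro j
    simp only
    rw [hem.extend_apply, hem.extend_apply]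

/-- the annihilator of a linearly independent family -/
theorem finrank_sol_li {κ : Type} [Fintype κ] {n : ℕ} (f : κ → Fin n → ℚ)
    (hf : LinearIndependent ℚ f) : finrank ℚ (sol f) + Fintype.card κ = n := by
  classical
  let A : Matrix κ (Fin n) ℚ := Matrix.of f
  have h1 : A.rank = Fintype.card κ := LinearIndependent.rank_matrix (M := A) hf
  have h2 : sol f = LinearMap.ker A.mulVecLin := by
    ext Y
    rw [LinearMap.mem_ker, Matrix.mulVecLin_apply]
    constructor
    · intro h
      funext B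
      exact h B
    · intro h B
      exact congrFun h B
  have h3 := LinearMap.finrank_range_add_finrank_ker A.mulVecLin
  rw [Module.finrank_fintype_fun_eq_card, Fintype.card_fin] at h3
  rw [h2]
  unfold Matrix.rank at h1
  omega

/-- more polynomials than variables are algebraically dependent -/
theorem alg_dep {σ ι : Type} [Fintype σ] [Fintype ι] (h : Fintype.card σ < Fintype.card ι)
    (Φ : ι → MvPolynomial σ ℚ) : ∃ F : MvPolynomial ι ℚ, F ≠ 0 ∧
      ∀ x : σ → ℚ, MvPolynomial.eval (fun i => MvPolynomial.eval x (Φ i)) F = 0 := by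
  have h1 : ¬ AlgebraicIndependent ℚ Φ := by
    intro hind
    have h2 := hind.cardinalMk_le_trdeg
    rw [MvPolynomial.trdeg_of_isDomain] at h2
    simp only [Cardinal.mk_fintype, Cardinal.lift_natCast, Nat.cast_le] at h2
    omega
  unfold AlgebraicIndependent at h1
  rw [injective_iff_map_eq_zero] at h1
  push Not at h1
  obtain ⟨F, hF, hF0⟩ := h1
  refine ⟨F, hF0, fun x => ?_⟩
  have h2 := congrArg (MvPolynomial.eval x) hF
  rw [map_zero] at h2
  rw [← h2, MvPolynomial.aeval_def, MvPolynomial.eval₂_comp_left, MvPolynomial.eval₂_eq_eval_map]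
  congr 1
  have : (MvPolynomial.eval x).comp (algebraMap ℚ (MvPolynomial σ ℚ)) = RingHom.id ℚ := by
    ext z
    simp [MvPolynomial.algebraMap_eq]
  rw [this, MvPolynomial.map_id]

/-- the number of integral zeros in a box -/
theorem count_zeros {ι : Type} [Fintype ι] (F : MvPolynomial ι ℚ) (hF : F ≠ 0) :
    ∃ C : ℕ, ∀ H : ℕ, Set.ncard {k : ι → ℤ | (∀ i, |k i| ≤ H) ∧
      MvPolynomial.eval (fun i => (k i : ℚ)) F = 0} ≤ C * (2 * H + 1) ^ (Fintype.card ι - 1) := by
  classical
  let n := Fintype.card ι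
  let e : ι ≃ Fin n := Fintype.equivFin ι
  let p : MvPolynomial (Fin n) ℚ := MvPolynomial.rename e F
  have hp : p ≠ 0 := by
    intro h
    apply hF
    apply MvPolynomial.rename_injective e e.injective
    rw [show MvPolynomial.rename e F = p from rfl, h, map_zero]
  refine ⟨p.totalDegree, fun H => ?_⟩
  let S : Finset ℚ := (Finset.Icc (-(H : ℤ)) H).image (fun z : ℤ => (z : ℚ))
  have hS : S.card = 2 * H + 1 := by
    rw [Finset.card_image_of_injective _ Int.cast_injective, Int.card_Icc]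
    omega
  let Z : Finset (Fin n → ℚ) := (Fintype.piFinset fun _ : Fin n => S).filter
    (fun f => MvPolynomial.eval f p = 0)
  have hZ : Z.card ≤ p.totalDegree * (2 * H + 1) ^ (n - 1) := by
    have h1 := MvPolynomial.schwartz_zippel_totalDegree hp S
    rw [hS] at h1
    rcases Nat.eq_zero_or_pos n with hn | hn
    · have hcard0 : Z.card = 0 := by
        rw [Finset.card_eq_zero, Finset.filter_eq_empty_iff]
        intro f _ hf
        have : IsEmpty (Fin n) := by rw [hn]; infer_instance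
        rw [MvPolynomial.eq_C_of_isEmpty p, MvPolynomial.eval_C] at hf
        apply hp
        rw [MvPolynomial.eq_C_of_isEmpty p, hf, map_zero]
      rw [hcard0]
      exact Nat.zero_le _
    · have hpos : (0 : ℚ≥0) < ((2 * H + 1 : ℕ) : ℚ≥0) := by positivity
      rw [div_le_div_iff₀ (by positivity) hpos] at h1
      obtain ⟨m, hm⟩ : ∃ m, n = m + 1 := ⟨n - 1, by omega⟩
      have h2 : (Z.card : ℚ≥0) * ((2 * H + 1 : ℕ) : ℚ≥0) ≤
          p.totalDegree * ((2 * H + 1 : ℕ) : ℚ≥0) ^ (m + 1) := by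
        rw [← hm]
        exact h1
      have h3 : (Z.card : ℚ≥0) ≤ p.totalDegree * ((2 * H + 1 : ℕ) : ℚ≥0) ^ m := by
        rw [pow_succ, ← mul_assoc] at h2
        exact le_of_mul_le_mul_right h2 hpos
      have h4 : n - 1 = m := by omega
      rw [h4]
      exact_mod_cast h3
  refine le_trans ?_ hZ
  rw [← Set.ncard_coe_finset]
  refine Set.ncard_le_ncard_of_injOn (fun k : ι → ℤ => fun j : Fin n => ((k (e.symm j) : ℤ) : ℚ))
    ?_ ?_ (Finset.finite_toSet _)
  · rintro k ⟨hk, hk0⟩
    rw [Finset.mem_coe, Finset.mem_filter, Fintype.mem_piFinset]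
    refine ⟨fun j => ?_, ?_⟩
    · refine Finset.mem_image.2 ⟨k (e.symm j), ?_, rfl⟩
      rw [Finset.mem_Icc]
      exact abs_le.1 (hk _)
    · rw [show p = MvPolynomial.rename e F from rfl, MvPolynomial.eval_rename]
      rw [← hk0]
      congr 2
      funext i
      simp
  · intro k _ k' _ h
    funext i
    have := congrFun h (e i)
    simpa using this

/-- common denominators -/
theorem exists_mul_int {κ : Type} [Fintype κ] (x : κ → ℚ) :
    ∃ (N : ℕ) (y : κ → ℤ), 0 < N ∧ ∀ l, (y l : ℚ) = N * x l := by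
  classical
  refine ⟨∏ l, (x l).den, fun l => (x l).num * ∏ l' ∈ Finset.univ.erase l, ((x l').den : ℤ),
    Finset.prod_pos fun l _ => (x l).den_pos, fun l => ?_⟩
  have h1 : ((∏ l, (x l).den : ℕ) : ℚ) = (x l).den * ∏ l' ∈ Finset.univ.erase l,
      ((x l').den : ℚ) := by
    push_cast
    exact (Finset.mul_prod_erase _ _ (Finset.mem_univ l)).symm
  rw [h1]
  push_cast
  have h2 : ((x l).num : ℚ) = x l * (x l).den := (Rat.mul_den_eq_num _).symm
  rw [h2]
  ring

end Pool.Agent.Q136.ZP
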