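import Pool.Agent.Q136.ZP.Val
import Pool.Agent.Q136.ZP.Lin

set_option autoImplicit false

/-!
# Independent logarithms and the hypersurface of exceptions
-/

namespace Pool.Agent.Q136.ZP

open Finset Module

/-- a product of powers of units -/
theorem lg_prod {K : Type*} [Field K] (lg : Additive Kˣ →+ ℚ) {κ : Type*} (s : Finset κ)
    (γ : κ → Kˣ) (x : κ → ℤ) : lg (Additive.ofMul (∏ l ∈ s, γ l ^ x l)) =
      ∑ l ∈ s, (x l : ℚ) * lg (Additive.ofMul (γ l)) := by
  rw [ofMul_prod, map_sum]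
  refine Finset.sum_congr rfl fun l _ => ?_
  rw [ofMul_zpow, map_zsmul, zsmul_eq_mul]

/-- If no nontrivial product of powers of the `γ l` is an algebraic unit, there are logarithms at
valuation rings of `K` whose values at the `γ l` form an invertible matrix. -/
theorem exists_logs {K : Type*} [Field K] {R : ℕ} (γ : Fin R → Kˣ)
    (hγ : ∀ x : Fin R → ℤ, IsIntegral ℤ ((∏ l, γ l ^ x l : Kˣ) : K) →
      IsIntegral ℤ ((∏ l, γ l ^ x l : Kˣ) : K)⁻¹ → x = 0) :
    ∃ (O : Fin R → ValuationSubring K) (lg : Fin R → (Additive Kˣ →+ ℚ)),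
      (∀ j, IsLog (O j) (lg j)) ∧ ∃ B : Matrix (Fin R) (Fin R) ℚ,
        B * (Matrix.of fun j l => lg j (Additive.ofMul (γ l))) = 1 := by
  classical
  let S : Set (Fin R → ℚ) := {v | ∃ (O : ValuationSubring K) (lg : Additive Kˣ →+ ℚ),
    IsLog O lg ∧ ∀ l, v l = lg (Additive.ofMul (γ l))}
  have hspan : Submodule.span ℚ S = ⊤ := by
    by_contra hcon
    obtain ⟨f, hf0, hf⟩ := Submodule.exists_le_ker_of_lt_top _ (lt_top_iff_ne_top.2 hcon)
    let x : Fin R → ℚ := fun l => f (Pi.single l 1)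
    have hfx : ∀ v : Fin R → ℚ, f v = ∑ l, x l * v l := by
      intro v
      have h0 : v = ∑ l, v l • (Pi.single l 1 : Fin R → ℚ) := pi_eq_sum_univ' v
      conv_lhs => rw [h0]
      rw [map_sum]
      refine Finset.sum_congr rfl fun l _ => ?_
      rw [map_smul, smul_eq_mul, mul_comm]
    have hx0 : x ≠ 0 := by
      intro h
      apply hf0
      ext v
      simp only [LinearMap.comp_apply, LinearMap.single_apply, LinearMap.zero_apply]
      exact congrFun h v
    obtain ⟨N, y, hN, hy⟩ := exists_mul_int x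
    have hy0 : y ≠ 0 := by
      intro h
      apply hx0
      funext l
      have h1 := hy l
      rw [h] at h1
      simp only [Pi.zero_apply, Int.cast_zero] at h1
      have h2 : (N : ℚ) ≠ 0 := by exact_mod_cast hN.ne'
      exact ((mul_eq_zero.1 h1.symm).resolve_left h2)
    set z : Kˣ := ∏ l, γ l ^ y l with hz
    obtain ⟨O, hO⟩ := exists_val_ne (z : K) z.ne_zero (fun h => hy0 (hγ y h.1 h.2))
    obtain ⟨lg, hlg, hlgz⟩ := exists_log O z hO
    apply hlgz
    rw [hz, lg_prod]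
    have h3 : f (fun l => lg (Additive.ofMul (γ l))) = 0 :=
      hf (Submodule.subset_span ⟨O, lg, hlg, fun l => rfl⟩)
    rw [hfx] at h3
    have h4 : ∑ l, (y l : ℚ) * lg (Additive.ofMul (γ l)) =
        N * ∑ l, x l * lg (Additive.ofMul (γ l)) := by
      rw [Finset.mul_sum]
      refine Finset.sum_congr rfl fun l _ => ?_
      rw [hy l]
      ring
    rw [h4, h3, mul_zero]
  obtain ⟨f, hfS, -, hfli⟩ := Submodule.exists_fun_fin_finrank_span_eq ℚ S
  have hr : finrank ℚ (Submodule.span ℚ S) = R := by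
    rw [hspan, finrank_top, Module.finrank_fintype_fun_eq_card, Fintype.card_fin]
  let f' : Fin R → (Fin R → ℚ) := fun j => f (Fin.cast hr.symm j)
  have hf' : ∀ j, f' j ∈ S := fun j => hfS _
  have hli : LinearIndependent ℚ f' := hfli.comp _ (Fin.cast_injective _)
  choose O lg hlg hv using hf'
  refine ⟨O, lg, hlg, ?_⟩
  have hM : (Matrix.of fun j l => lg j (Additive.ofMul (γ l))) = Matrix.of f' := by
    ext j l
    exact (hv j l).symm
  rw [hM]
  have hunit : IsUnit (Matrix.of f') := Matrix.linearIndependent_rows_iff_isUnit.1 hli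
  obtain ⟨u, hu⟩ := hunit
  exact ⟨(u⁻¹ : (Matrix (Fin R) (Fin R) ℚ)ˣ), by rw [← hu]; exact u.inv_mul⟩

/-- The variables: `U_{j,t}` (`t ∈ T`), `Q_{h,t}`, `E_{l,h}` (`h ∉ T`) and `S_{j,l}`. -/
abbrev Var (R r n M : ℕ) (T : Finset (Fin n)) : Type :=
  (Fin R × T) ⊕ (({h // h ∉ T} × T) ⊕ ((Fin r × {h // h ∉ T}) ⊕ (Fin R × Fin M)))

/-- the coordinates `X_{j,h}` in terms of the parameters -/
noncomputable def Xp {R r n M : ℕ} (T : Finset (Fin n)) (w : Fin R → Fin r → ℚ) (j : Fin R)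
    (h : Fin n) : MvPolynomial (Var R r n M T) ℚ :=
  if hh : h ∈ T then MvPolynomial.X (Sum.inl (j, ⟨h, hh⟩)) else
    ∑ t : T, MvPolynomial.X (Sum.inr (Sum.inl (⟨h, hh⟩, t))) * MvPolynomial.X (Sum.inl (j, t)) +
    ∑ l, MvPolynomial.C (w j l) * MvPolynomial.X (Sum.inr (Sum.inr (Sum.inl (l, ⟨h, hh⟩))))

/-- the coordinates `K_{j,i}` in terms of the parameters -/
noncomputable def Kp {R r n M N : ℕ} (T : Finset (Fin n)) (w : Fin R → Fin r → ℚ)
    (e : Fin N → Fin n → ℤ) (a : Fin R → Fin N → ℚ) (b : Fin R → Fin M → Fin N → ℚ)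
    (ji : Fin R × Fin N) : MvPolynomial (Var R r n M T) ℚ :=
  MvPolynomial.C (a ji.1 ji.2) + ∑ l, MvPolynomial.X (Sum.inr (Sum.inr (Sum.inr (ji.1, l)))) *
    MvPolynomial.C (b ji.1 l ji.2) - ∑ h, MvPolynomial.C (e ji.2 h : ℚ) * Xp T w ji.1 h

theorem card_var (R r n M : ℕ) (T : Finset (Fin n)) : Fintype.card (Var R r n M T) =
    R * T.card + ((n - T.card) * T.card + (r * (n - T.card) + R * M)) := by
  classical
  have h : Fintype.card {h // h ∉ T} = n - T.card := by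
    rw [Fintype.card_subtype_compl, Fintype.card_fin, Fintype.card_coe]
  simp only [Var, Fintype.card_sum, Fintype.card_prod, Fintype.card_fin, Fintype.card_coe, h]

/-- the parametrization of the exceptions -/
theorem param_exists {n N M R r c : ℕ} (hcn : c ≤ n) (e : Fin N → Fin n → ℤ)
    (w : Fin R → Fin r → ℚ)
    {Pt : Type} (d : Pt → {B : Finset (Fin N) // B.card = M + 1} → Fin N → ℚ)
    (hd : ∀ ρ B, d ρ B ≠ 0) (hB : ∀ ρ B, ∀ i ∉ B.1, d ρ B i = 0)
    (rhs : Fin R → Pt → {B : Finset (Fin N) // B.card = M + 1} → ℚ) :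
    ∃ (a : Fin R → Pt → Fin N → ℚ) (b : Fin R → Pt → Fin M → Fin N → ℚ),
      ∀ (κ : Fin R × Fin N → ℚ) (X : Fin R → Fin n → ℚ) (E : Fin r → Fin n → ℚ)
        (U : Submodule ℚ (Fin n → ℚ)), finrank ℚ U ≤ c →
        (∀ j, (fun h => X j h - ∑ l, w j l * E l h) ∈ U) →
        (∀ j, ∃ ρ, ∀ B, ∑ i, d ρ B i * (κ (j, i) + ∑ h, (e i h : ℚ) * X j h) = rhs j ρ B) →
        ∃ (T : {T : Finset (Fin n) // T.card = c}) (ρ : Fin R → Pt) (x : Var R r n M T.1 → ℚ),
          ∀ ji, κ ji = MvPolynomial.eval x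
            (Kp T.1 w e (fun j => a j (ρ j)) (fun j => b j (ρ j)) ji) := by
  classical
  have hsol : ∀ (j : Fin R) (ρ : Pt), ∃ (a : Fin N → ℚ) (b : Fin M → Fin N → ℚ),
      ∀ Y : Fin N → ℚ, (∀ B, ∑ i, d ρ B i * Y i = rhs j ρ B) →
        ∃ s : Fin M → ℚ, ∀ i, Y i = a i + ∑ l, s l * b l i := fun j ρ =>
    param_sol (d ρ) (finrank_sol (d ρ) (hd ρ) (hB ρ)) (rhs j ρ)
  choose a b hab using hsol
  refine ⟨a, b, ?_⟩
  intro κ X E U hU hXU hpat
  choose ρ hρ using hpat
  obtain ⟨T, hT, q, hq⟩ := select_le U c hU (by rw [Fintype.card_fin]; exact hcn)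
  have hsj : ∀ j, ∃ s : Fin M → ℚ, ∀ i, κ (j, i) + ∑ h, (e i h : ℚ) * X j h =
      a j (ρ j) i + ∑ l, s l * b j (ρ j) l i := fun j => hab j (ρ j) _ (hρ j)
  choose s hs using hsj
  let x : Var R r n M T → ℚ := Sum.elim (fun jt => X jt.1 jt.2) (Sum.elim (fun ht => q ht.1 ht.2)
    (Sum.elim (fun lh => E lh.1 lh.2 - ∑ t ∈ T, q lh.2 t * E lh.1 t) (fun jl => s jl.1 jl.2)))
  refine ⟨⟨T, hT⟩, ρ, x, ?_⟩
  have hX : ∀ j h, MvPolynomial.eval x (Xp T w j h) = X j h := by
    intro j h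
    unfold Xp
    split_ifs with hh
    · simp [x]
    · have h1 := hq h _ (hXU j)
      simp only [map_add, map_sum, map_mul, MvPolynomial.eval_X, MvPolynomial.eval_C, x,
        Sum.elim_inl, Sum.elim_inr]
      rw [Finset.sum_coe_sort T (fun t => q h t * X j t)]
      have h2 : ∑ t ∈ T, q h t * (X j t - ∑ l, w j l * E l t) = ∑ t ∈ T, q h t * X j t -
          ∑ l, w j l * ∑ t ∈ T, q h t * E l t := by
        simp only [mul_sub, Finset.sum_sub_distrib, Finset.mul_sum]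
        congr 1
        rw [Finset.sum_comm]
        refine Finset.sum_congr rfl fun l _ => Finset.sum_congr rfl fun t _ => ?_
        ring
      rw [h2] at h1
      simp only [mul_sub, Finset.sum_sub_distrib]
      linarith
  rintro ⟨j, i⟩
  have h1 := hs j i
  simp only [Kp, map_sub, map_add, map_sum, map_mul, MvPolynomial.eval_X, MvPolynomial.eval_C,
    hX]
  simp only [x, Sum.elim_inr]
  linarith

end Pool.Agent.Q136.ZP
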