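import Pool.Agent.Q136.ZP.Tr

set_option autoImplicit false

/-!
# The main argument for points
-/

namespace Pool.Agent.Q136.ZP

open Finset Module H56R3.ZP

/-- A basis of the lattice of relations together with the transcendental coordinates is linearly
independent. -/
theorem li_of_rel {K L : Type*} [Field K] [Field L] [Algebra K L] {n : ℕ} (P : Fin n → L)
    (hP : ∀ l, P l ≠ 0) {τ : Type} [Fintype τ] (b : τ → Fin n)
    (hb : AlgebraicIndependent K (fun t => P (b t))) {κ : Type} [Fintype κ]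
    (m : κ → Fin n → ℤ) (hm : LinearIndependent ℤ m) (χ : κ → K)
    (hχ : ∀ a, mon P (m a) = algebraMap K L (χ a)) :
    LinearIndependent ℚ (Sum.elim (fun a => fun h => (m a h : ℚ))
      (fun t => (Pi.single (b t) 1 : Fin n → ℚ)) : κ ⊕ τ → Fin n → ℚ) := by
  classical
  rw [Fintype.linearIndependent_iff]
  intro x hx
  obtain ⟨N, y, hN, hy⟩ := exists_mul_int x
  have hN' : (N : ℚ) ≠ 0 := by exact_mod_cast hN.ne'
  -- the integral relation
  have h1 : ∑ a, y (Sum.inl a) • m a + ∑ t, y (Sum.inr t) • (Pi.single (b t) 1 : Fin n → ℤ) =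
      0 := by
    funext h
    have h2 := congrFun hx h
    rw [Fintype.sum_sum_type] at h2
    simp only [Sum.elim_inl, Sum.elim_inr, Pi.add_apply, Finset.sum_apply, Pi.smul_apply,
      smul_eq_mul, Pi.zero_apply] at h2
    have h3 : ((∑ a, y (Sum.inl a) * m a h + ∑ t, y (Sum.inr t) *
        (Pi.single (b t) 1 : Fin n → ℤ) h : ℤ) : ℚ) = N * (∑ a, x (Sum.inl a) * (m a h : ℚ) +
        ∑ t, x (Sum.inr t) * (Pi.single (b t) 1 : Fin n → ℚ) h) := by
      push_cast
      rw [mul_add, Finset.mul_sum, Finset.mul_sum]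
      congr 1
      · refine Finset.sum_congr rfl fun a _ => ?_
        rw [hy]; ring
      · refine Finset.sum_congr rfl fun t _ => ?_
        rw [hy, Pi.single_apply, Pi.single_apply]
        split_ifs <;> simp
    rw [h2, mul_zero] at h3
    simp only [Pi.add_apply, Finset.sum_apply, Pi.smul_apply, smul_eq_mul, Pi.zero_apply]
    exact_mod_cast h3
  have h2 : (∏ a, mon P (m a) ^ y (Sum.inl a)) * ∏ t, P (b t) ^ y (Sum.inr t) = 1 := by
    have h3 := congrArg (mon P) h1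
    rw [mon_add hP, mon_sum hP, mon_sum hP, mon_zero] at h3
    simpa only [mon_single] using h3
  have hχ0 : ∀ a, χ a ≠ 0 := by
    intro a h
    have := hχ a
    rw [h, map_zero] at this
    exact mon_ne_zero hP _ this
  have h4 : ∏ t, P (b t) ^ y (Sum.inr t) =
      algebraMap K L (∏ a, χ a ^ y (Sum.inl a))⁻¹ := by
    rw [map_inv₀, map_prod]
    have h5 : ∏ a, algebraMap K L (χ a ^ y (Sum.inl a)) = ∏ a, mon P (m a) ^ y (Sum.inl a) :=
      Finset.prod_congr rfl fun a _ => by rw [map_zpow₀, hχ a]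
    rw [h5]
    exact eq_inv_of_mul_eq_one_right h2
  have h5 : (fun t => y (Sum.inr t)) = 0 := mul_indep' _ hb _ _ h4
  have h6 : ∑ a, y (Sum.inl a) • m a = 0 := by
    have : ∑ t, y (Sum.inr t) • (Pi.single (b t) 1 : Fin n → ℤ) = 0 := by
      refine Finset.sum_eq_zero fun t _ => ?_
      have := congrFun h5 t
      simp only [Pi.zero_apply] at this
      rw [this, zero_smul]
    rw [this, add_zero] at h1
    exact h1
  have h7 := Fintype.linearIndependent_iff.1 hm _ h6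
  intro i
  have h8 : (y i : ℚ) = 0 := by
    rcases i with a | t
    · exact_mod_cast h7 a
    · exact_mod_cast congrFun h5 t
  rw [hy i] at h8
  exact (mul_eq_zero.1 h8).resolve_left hN'

/-- solvability of a linear system with independent rows -/
theorem exists_sol {κ : Type} [Fintype κ] {n : ℕ} (f : κ → Fin n → ℚ)
    (hf : LinearIndependent ℚ f) (v : κ → ℚ) : ∃ E : Fin n → ℚ, ∀ a, ∑ h, f a h * E h = v a := by
  classical
  let A : Matrix κ (Fin n) ℚ := Matrix.of f
  have h1 : A.rank = Fintype.card κ := LinearIndependent.rank_matrix (M := A) hf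
  have h2 : LinearMap.range A.mulVecLin = ⊤ := by
    apply Submodule.eq_top_of_finrank_eq
    rw [Module.finrank_fintype_fun_eq_card]
    exact h1
  obtain ⟨E, hE⟩ := LinearMap.range_eq_top.1 h2 v
  refine ⟨E, fun a => ?_⟩
  exact congrFun hE a

/-- patterns of ties -/
abbrev Ties {N M : ℕ} (F : (B : {B : Finset (Fin N) // B.card = M + 1}) → MvPolynomial B.1 ℂ) :
    Type :=
  {ρ : (B : {B : Finset (Fin N) // B.card = M + 1}) → (F B).support × (F B).support //
    ∀ B, (ρ B).1 ≠ (ρ B).2}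

/-- extension of an exponent vector by zero -/
def extz {N : ℕ} {B : Finset (Fin N)} (μ : B →₀ ℕ) (i : Fin N) : ℚ :=
  if h : i ∈ B then (μ ⟨i, h⟩ : ℚ) else 0

theorem main_point {N n M r R : ℕ}
    (F : (B : {B : Finset (Fin N) // B.card = M + 1}) → MvPolynomial B.1 ℂ)
    (hF : ∀ B, F B ≠ 0) (e : Fin N → Fin n → ℤ) (O : Fin R → ValuationSubring ℂ)
    (lg : Fin R → (Additive ℂˣ →+ ℚ)) (hlg : ∀ j, IsLog (O j) (lg j)) (γ₀ : Fin r → ℂˣ)
    (s c : ℕ) (hc : c = min (s - 1) n) :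
    ∃ (a : Fin R → Ties F → Fin N → ℚ) (b : Fin R → Ties F → Fin M → Fin N → ℚ),
      ∀ g : Fin N → ℂˣ,
      (∃ (L : Type) (_ : Field L) (_ : Algebra ℂ L) (P : Fin n → L)
        (Λ : Submodule ℤ (Fin n → ℤ)) (χ : Λ → ℂ) (τ : Type) (_ : Fintype τ) (b : τ → Fin n),
        (∀ l, P l ≠ 0) ∧
        (∀ B, MvPolynomial.aeval (fun i : B.1 => algebraMap ℂ L (g i) * mon P (e i)) (F B) = 0) ∧
        (∀ m, Allowed γ₀ (χ m)) ∧
        (∀ m : Λ, mon P (m : Fin n → ℤ) = algebraMap ℂ L (χ m)) ∧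
        AlgebraicIndependent ℂ (fun t => P (b t)) ∧
        n < Fintype.card τ + s + finrank ℤ Λ) →
      ∃ (T : {T : Finset (Fin n) // T.card = c}) (ρ : Fin R → Ties F) (x : Var R r n M T.1 → ℚ),
        ∀ ji, lg ji.1 (Additive.ofMul (g ji.2)) = MvPolynomial.eval x
          (Kp T.1 (fun j l => lgx (lg j) (γ₀ l : ℂ)) e (fun j => a j (ρ j)) (fun j => b j (ρ j))
            ji) := by
  classical
  let d : Ties F → {B : Finset (Fin N) // B.card = M + 1} → Fin N → ℚ :=
    fun ρ B i => extz ((ρ.1 B).1 : B.1 →₀ ℕ) i - extz ((ρ.1 B).2 : B.1 →₀ ℕ) i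
  have hd : ∀ ρ B, d ρ B ≠ 0 := by
    intro ρ B h
    apply ρ.2 B
    apply Subtype.ext
    ext i
    have h1 := congrFun h i
    simp only [d, extz, dif_pos i.2, Pi.zero_apply] at h1
    have h2 : ((((ρ.1 B).1 : B.1 →₀ ℕ) i : ℕ) : ℚ) = ((((ρ.1 B).2 : B.1 →₀ ℕ) i : ℕ) : ℚ) := by
      linarith
    exact_mod_cast h2
  have hB : ∀ ρ B, ∀ i ∉ B.1, d ρ B i = 0 := by
    intro ρ B i hi
    simp only [d, extz, dif_neg hi, sub_self]
  let rhs : Fin R → Ties F → {B : Finset (Fin N) // B.card = M + 1} → ℚ := fun j ρ B =>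
    lgx (lg j) ((F B).coeff (ρ.1 B).2) - lgx (lg j) ((F B).coeff (ρ.1 B).1)
  obtain ⟨a, b₀, hG⟩ := param_exists (c := c) (n := n) (N := N) (M := M) (R := R) (r := r)
    (by omega) e (fun j l => lgx (lg j) (γ₀ l : ℂ)) d hd hB rhs
  refine ⟨a, b₀, ?_⟩
  rintro g ⟨L, _, _, P, Λ, χ, τ, _, b, hP, hFP, hχ, hΛ, hb, hcon⟩
  -- extension of the logarithms
  have hext : ∀ j, ∃ (V : ValuationSubring L) (lg' : Additive Lˣ →+ ℚ), IsLog V lg' ∧
      (∀ t, V.valuation (P (b t)) = 1) ∧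
      (∀ u : ℂˣ, lg' (Additive.ofMul (Units.map (algebraMap ℂ L).toMonoidHom u)) =
        lg j (Additive.ofMul u)) := by
    intro j
    obtain ⟨V, hV, hVb⟩ := exists_ext (O j) (fun t => P (b t)) hb
    obtain ⟨lg', h1, h2⟩ := exists_log_ext (O j) V hV (lg j) (hlg j)
    exact ⟨V, lg', h1, hVb, h2⟩
  choose V lg' hlg' hVb hlge using hext
  have hlgc : ∀ j (z : ℂ), z ≠ 0 → lgx (lg' j) (algebraMap ℂ L z) = lgx (lg j) z := by
    intro j z hz
    lift z to ℂˣ using hz.isUnit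
    rw [lgx_unit, ← hlge, ← lgx_unit]
    rfl
  let X : Fin R → Fin n → ℚ := fun j h => lgx (lg' j) (P h)
  -- the basis of the lattice
  let bs := Module.Free.chooseBasis ℤ Λ
  let κ := Module.Free.ChooseBasisIndex ℤ Λ
  have hκ : Fintype.card κ = finrank ℤ Λ := (Module.finrank_eq_card_chooseBasisIndex ℤ Λ).symm
  let m : κ → Fin n → ℤ := fun a => (bs a : Fin n → ℤ)
  have hm : LinearIndependent ℤ m := bs.linearIndependent.map' Λ.subtype (Submodule.ker_subtype Λ)
  let f : κ ⊕ τ → Fin n → ℚ := Sum.elim (fun a => fun h => (m a h : ℚ))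
      (fun t => (Pi.single (b t) 1 : Fin n → ℚ))
  have hf : LinearIndependent ℚ f := li_of_rel P hP b hb m hm (fun a => χ (bs a))
    (fun a => hΛ (bs a))
  have hfin := finrank_sol_li f hf
  rw [Fintype.card_sum, hκ] at hfin
  choose q hq using fun a => (hχ (bs a)).lgx
  choose E hE using fun l : Fin r => exists_sol f hf (Sum.elim (fun a => q a l) (fun _ => 0))
  refine hG (fun ji => lg ji.1 (Additive.ofMul (g ji.2))) X E (sol f) (by omega) ?_ ?_
  · intro j
    rintro (a | t)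
    · have h1 : ∑ h, (m a h : ℚ) * X j h = lgx (lg' j) (mon P (m a)) :=
        (lgx_mon (lg' j) hP (m a)).symm
      rw [hΛ (bs a), hlgc j _ (hχ (bs a)).1, hq a (O j) (lg j) (hlg j)] at h1
      have h2 : ∀ l, ∑ h, (m a h : ℚ) * E l h = q a l := fun l => hE l (Sum.inl a)
      have h3 : ∑ h, (m a h : ℚ) * (X j h - ∑ l, lgx (lg j) (γ₀ l : ℂ) * E l h) =
          ∑ h, (m a h : ℚ) * X j h - ∑ l, lgx (lg j) (γ₀ l : ℂ) * ∑ h, (m a h : ℚ) * E l h := by
        simp only [mul_sub, Finset.sum_sub_distrib, Finset.mul_sum]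
        congr 1
        rw [Finset.sum_comm]
        refine Finset.sum_congr rfl fun l _ => Finset.sum_congr rfl fun h _ => ?_
        ring
      show ∑ h, (m a h : ℚ) * (X j h - ∑ l, lgx (lg j) (γ₀ l : ℂ) * E l h) = 0
      rw [h3, h1]
      simp only [h2, sub_self]
    · have h1 : X j (b t) = 0 := lgx_of_val (hlg' j) (hVb j t)
      have h2 : ∀ l, E l (b t) = 0 := by
        intro l
        have h3 : ∑ h, (Pi.single (b t) 1 : Fin n → ℚ) h * E l h = 0 := hE l (Sum.inr t)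
        simpa [Pi.single_apply] using h3
      show ∑ h, (Pi.single (b t) 1 : Fin n → ℚ) h *
        (X j h - ∑ l, lgx (lg j) (γ₀ l : ℂ) * E l h) = 0
      simp [Pi.single_apply, h1, h2]
  · intro j
    -- the ties
    have hy0 : ∀ i : Fin N, algebraMap ℂ L (g i) * mon P (e i) ≠ 0 := fun i =>
      mul_ne_zero ((map_ne_zero _).2 (g i).ne_zero) (mon_ne_zero hP _)
    have htie : ∀ B, ∃ μ μ' : (F B).support, μ ≠ μ' ∧
        (V j).valuation (algebraMap ℂ L ((F B).coeff μ) * ∏ i : B.1,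
          (algebraMap ℂ L (g i) * mon P (e i)) ^ ((μ : B.1 →₀ ℕ) i)) =
        (V j).valuation (algebraMap ℂ L ((F B).coeff μ') * ∏ i : B.1,
          (algebraMap ℂ L (g i) * mon P (e i)) ^ ((μ' : B.1 →₀ ℕ) i)) := by
      intro B
      have : Nonempty (F B).support := by
        obtain ⟨μ, hμ⟩ := MvPolynomial.support_nonempty.2 (hF B)
        exact ⟨⟨μ, hμ⟩⟩
      refine exists_pair (V j).valuation (fun μ : (F B).support =>
        algebraMap ℂ L ((F B).coeff μ) * ∏ i : B.1,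
          (algebraMap ℂ L (g i) * mon P (e i)) ^ ((μ : B.1 →₀ ℕ) i)) ?_ ?_
      · intro μ
        refine mul_ne_zero ((map_ne_zero _).2 (MvPolynomial.mem_support_iff.1 μ.2)) ?_
        exact Finset.prod_ne_zero_iff.2 fun i _ => pow_ne_zero _ (hy0 i)
      · have h1 := hFP B
        rw [MvPolynomial.aeval_def, MvPolynomial.eval₂_eq'] at h1
        rw [Finset.sum_coe_sort (F B).support (fun μ : B.1 →₀ ℕ =>
          algebraMap ℂ L ((F B).coeff μ) * ∏ i : B.1,
          (algebraMap ℂ L (g i) * mon P (e i)) ^ (μ i))]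
        exact h1
    choose μ μ' hμ hval using htie
    refine ⟨⟨fun B => (μ B, μ' B), hμ⟩, fun B => ?_⟩
    have hnz : ∀ ν : (F B).support, (algebraMap ℂ L ((F B).coeff ν) * ∏ i : B.1,
          (algebraMap ℂ L (g i) * mon P (e i)) ^ ((ν : B.1 →₀ ℕ) i)) ≠ 0 := by
      intro ν
      refine mul_ne_zero ((map_ne_zero _).2 (MvPolynomial.mem_support_iff.1 ν.2)) ?_
      exact Finset.prod_ne_zero_iff.2 fun i _ => pow_ne_zero _ (hy0 i)
    have hlgν : ∀ ν : (F B).support, lgx (lg' j) (algebraMap ℂ L ((F B).coeff ν) * ∏ i : B.1,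
          (algebraMap ℂ L (g i) * mon P (e i)) ^ ((ν : B.1 →₀ ℕ) i)) =
        lgx (lg j) ((F B).coeff ν) + ∑ i, extz (ν : B.1 →₀ ℕ) i *
          (lg j (Additive.ofMul (g i)) + ∑ h, (e i h : ℚ) * X j h) := by
      intro ν
      have hprod : ∏ i : B.1,
          (algebraMap ℂ L (g i) * mon P (e i)) ^ ((ν : B.1 →₀ ℕ) i) ≠ 0 :=
        Finset.prod_ne_zero_iff.2 fun i _ => pow_ne_zero _ (hy0 i)
      rw [lgx_mul _ ((map_ne_zero _).2 (MvPolynomial.mem_support_iff.1 ν.2)) hprod,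
        hlgc j _ (MvPolynomial.mem_support_iff.1 ν.2), lgx_prod (lg' j) Finset.univ
        (fun i : B.1 => (algebraMap ℂ L (g i) * mon P (e i)) ^ ((ν : B.1 →₀ ℕ) i))
        (fun i _ => pow_ne_zero _ (hy0 i))]
      congr 1
      have h1 : ∀ i : B.1, lgx (lg' j) ((algebraMap ℂ L (g i) * mon P (e i)) ^
          ((ν : B.1 →₀ ℕ) i)) = (((ν : B.1 →₀ ℕ) i : ℕ) : ℚ) *
          (lg j (Additive.ofMul (g i)) + ∑ h, (e i h : ℚ) * X j h) := by
        intro i
        rw [lgx_pow _ (hy0 i), lgx_mul _ ((map_ne_zero _).2 (g i).ne_zero) (mon_ne_zero hP _),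
          hlgc j _ (g i).ne_zero, lgx_unit, lgx_mon _ hP]
      rw [Finset.sum_congr rfl fun i _ => h1 i]
      have h2 : ∀ i : B.1, (((ν : B.1 →₀ ℕ) i : ℕ) : ℚ) *
          (lg j (Additive.ofMul (g i)) + ∑ h, (e i h : ℚ) * X j h) =
          extz (ν : B.1 →₀ ℕ) i * (lg j (Additive.ofMul (g i)) + ∑ h, (e i h : ℚ) * X j h) := by
        intro i
        simp only [extz, dif_pos i.2]
      rw [Finset.sum_congr rfl fun i _ => h2 i]
      rw [Finset.sum_coe_sort B.1 (fun i : Fin N => extz (ν : B.1 →₀ ℕ) i *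
          (lg j (Additive.ofMul (g i)) + ∑ h, (e i h : ℚ) * X j h))]
      refine Finset.sum_subset (Finset.subset_univ _) fun i _ hi => ?_
      simp only [extz, dif_neg hi, zero_mul]
    have h1 := lgx_eq_of_val (hlg' j) (hnz (μ B)) (hnz (μ' B)) (hval B)
    rw [hlgν, hlgν] at h1
    simp only [d, rhs, sub_mul, Finset.sum_sub_distrib]
    linarith

end Pool.Agent.Q136.ZP
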