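import Pool.Agent.Q136.ZP.Poly
import Pool.Agent.H56R3.ZP.Geo

set_option autoImplicit false

/-!
# Points on translates and their logarithms
-/

namespace Pool.Agent.Q136.ZP

open Finset Module H56R3.ZP

section lgx

variable {L : Type*} [Field L]

/-- a logarithm as a function on the field -/
noncomputable def lgx (lg : Additive Lˣ →+ ℚ) (x : L) : ℚ :=
  open Classical in if h : x ≠ 0 then lg (Additive.ofMul (Units.mk0 x h)) else 0

theorem lgx_unit (lg : Additive Lˣ →+ ℚ) (u : Lˣ) : lgx lg (u : L) = lg (Additive.ofMul u) := by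
  unfold lgx
  rw [dif_pos u.ne_zero, Units.mk0_val]

theorem lgx_mul (lg : Additive Lˣ →+ ℚ) {x y : L} (hx : x ≠ 0) (hy : y ≠ 0) :
    lgx lg (x * y) = lgx lg x + lgx lg y := by
  lift x to Lˣ using hx.isUnit
  lift y to Lˣ using hy.isUnit
  rw [← Units.val_mul, lgx_unit, lgx_unit, lgx_unit, ofMul_mul, map_add]

theorem lgx_one (lg : Additive Lˣ →+ ℚ) : lgx lg (1 : L) = 0 := by
  have := lgx_unit lg (1 : Lˣ)
  rw [Units.val_one, ofMul_one, map_zero] at this
  exact this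

theorem lgx_inv (lg : Additive Lˣ →+ ℚ) {x : L} (hx : x ≠ 0) :
    lgx lg x⁻¹ = - lgx lg x := by
  have := lgx_mul lg hx (inv_ne_zero hx)
  rw [mul_inv_cancel₀ hx, lgx_one] at this
  linarith

theorem lgx_zpow (lg : Additive Lˣ →+ ℚ) {x : L} (hx : x ≠ 0) (k : ℤ) :
    lgx lg (x ^ k) = k * lgx lg x := by
  lift x to Lˣ using hx.isUnit
  rw [← Units.val_zpow_eq_zpow_val, lgx_unit, lgx_unit, ofMul_zpow, map_zsmul, zsmul_eq_mul]

theorem lgx_pow (lg : Additive Lˣ →+ ℚ) {x : L} (hx : x ≠ 0) (k : ℕ) :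
    lgx lg (x ^ k) = k * lgx lg x := by
  have := lgx_zpow lg hx k
  rw [zpow_natCast] at this
  rw [this]
  push_cast
  rfl

theorem lgx_prod (lg : Additive Lˣ →+ ℚ) {κ : Type*} (s : Finset κ) (f : κ → L)
    (hf : ∀ i ∈ s, f i ≠ 0) : lgx lg (∏ i ∈ s, f i) = ∑ i ∈ s, lgx lg (f i) := by
  classical
  induction s using Finset.induction_on with
  | empty => simp [lgx_one]
  | insert a s ha ih =>
    rw [Finset.prod_insert ha, Finset.sum_insert ha, lgx_mul lg (hf a (Finset.mem_insert_self a s))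
      (Finset.prod_ne_zero_iff.2 fun i hi => hf i (Finset.mem_insert_of_mem hi)),
      ih fun i hi => hf i (Finset.mem_insert_of_mem hi)]

theorem lgx_of_val {O : ValuationSubring L} {lg : Additive Lˣ →+ ℚ} (h : IsLog O lg) {x : L}
    (hx : O.valuation x = 1) : lgx lg x = 0 := by
  have hx0 : x ≠ 0 := by
    rintro rfl
    rw [map_zero] at hx
    exact zero_ne_one hx
  lift x to Lˣ using hx0.isUnit
  rw [lgx_unit]
  exact h x hx

theorem lgx_eq_of_val {O : ValuationSubring L} {lg : Additive Lˣ →+ ℚ} (h : IsLog O lg) {x y : L}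
    (hx : x ≠ 0) (hy : y ≠ 0) (hxy : O.valuation x = O.valuation y) : lgx lg x = lgx lg y := by
  have h0 : O.valuation y ≠ 0 := (Valuation.ne_zero_iff _).2 hy
  have h1 : O.valuation (x * y⁻¹) = 1 := by
    rw [map_mul, map_inv₀, hxy, mul_inv_cancel₀ h0]
  have h2 := lgx_of_val h h1
  rw [lgx_mul lg hx (inv_ne_zero hy), lgx_inv lg hy] at h2
  linarith

theorem lgx_mon {n : ℕ} (lg : Additive Lˣ →+ ℚ) {P : Fin n → L} (hP : ∀ l, P l ≠ 0)
    (m : Fin n → ℤ) : lgx lg (mon P m) = ∑ h, (m h : ℚ) * lgx lg (P h) := by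
  unfold mon
  rw [lgx_prod lg _ _ fun i _ => zpow_ne_zero _ (hP i)]
  exact Finset.sum_congr rfl fun h _ => lgx_zpow lg (hP h) _

end lgx

/-- algebraic units -/
def AlgUnit {K : Type*} [Field K] (z : K) : Prop := IsIntegral ℤ z ∧ IsIntegral ℤ z⁻¹

theorem AlgUnit.val {K : Type*} [Field K] {z : K} (h : AlgUnit z) (hz : z ≠ 0)
    (O : ValuationSubring K) : O.valuation z = 1 := by
  rw [val_eq_one_iff O hz, ← O.valuation_le_one_iff, ← O.valuation_le_one_iff]
  exact ⟨val_integral O _ h.1, val_integral O _ h.2⟩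

/-- algebraically independent elements are multiplicatively independent modulo constants -/
theorem mul_indep' {K L : Type*} [Field K] [Field L] [Algebra K L] {τ : Type*} [Fintype τ]
    (y : τ → L) (hy : AlgebraicIndependent K y) (z : τ → ℤ) (w : K)
    (h : ∏ t, y t ^ z t = algebraMap K L w) : z = 0 := by
  classical
  have hy0 : ∀ t, y t ≠ 0 := fun t => hy.ne_zero t
  have hm : ∀ (v : τ → ℕ) (r : K), algebraMap K L r * ∏ t, y t ^ v t = MvPolynomial.aeval y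
      (MvPolynomial.monomial (Finsupp.equivFunOnFinite.symm v) r) := by
    intro v r
    rw [MvPolynomial.aeval_monomial, Finsupp.prod_fintype _ _ (by simp)]
    rfl
  have h1 : algebraMap K L 1 * ∏ t, y t ^ (z t).toNat =
      algebraMap K L w * ∏ t, y t ^ (-z t).toNat := by
    have h2 : ∀ t, y t ^ (z t).toNat = y t ^ (-z t).toNat * y t ^ z t := by
      intro t
      rw [← zpow_natCast, ← zpow_natCast, ← zpow_add₀ (hy0 t)]
      congr 1
      omega
    rw [Finset.prod_congr rfl fun t _ => h2 t, Finset.prod_mul_distrib, h, map_one]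
    ring
  rw [hm, hm] at h1
  have h3 := hy h1
  rw [MvPolynomial.monomial_eq_monomial_iff] at h3
  rcases h3 with ⟨h4, -⟩ | ⟨h4, -⟩
  · have h5 := Finsupp.equivFunOnFinite.symm.injective h4
    funext t
    have h6 := congrFun h5 t
    simp only [Pi.zero_apply]
    omega
  · exact absurd h4 one_ne_zero

/-- `z` is in the division hull of the group generated by the `γ₀ l` and the algebraic units -/
def Allowed {r : ℕ} (γ₀ : Fin r → ℂˣ) (z : ℂ) : Prop :=
  z ≠ 0 ∧ ∃ k : ℕ, 0 < k ∧ ∃ x : Fin r → ℤ, AlgUnit (z ^ k * ∏ l, (γ₀ l : ℂ) ^ x l)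

theorem Allowed.lgx {r : ℕ} {γ₀ : Fin r → ℂˣ} {z : ℂ} (h : Allowed γ₀ z) :
    ∃ a : Fin r → ℚ, ∀ (O : ValuationSubring ℂ) (lg : Additive ℂˣ →+ ℚ), IsLog O lg →
      lgx lg z = ∑ l, lgx lg (γ₀ l : ℂ) * a l := by
  obtain ⟨hz, k, hk, x, hx⟩ := h
  refine ⟨fun l => -(x l : ℚ) / k, fun O lg hlg => ?_⟩
  have h0 : ∀ l ∈ (Finset.univ : Finset (Fin r)), (γ₀ l : ℂ) ^ x l ≠ 0 := fun l _ =>
    zpow_ne_zero _ (γ₀ l).ne_zero
  have h1 : z ^ k * ∏ l, (γ₀ l : ℂ) ^ x l ≠ 0 :=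
    mul_ne_zero (pow_ne_zero _ hz) (Finset.prod_ne_zero_iff.2 h0)
  have h2 := lgx_of_val hlg (hx.val h1 O)
  rw [lgx_mul lg (pow_ne_zero _ hz) (Finset.prod_ne_zero_iff.2 h0), lgx_pow lg hz,
    lgx_prod lg _ _ h0] at h2
  have h3 : ∑ l, ZP.lgx lg ((γ₀ l : ℂ) ^ x l) = ∑ l, (x l : ℚ) * ZP.lgx lg (γ₀ l : ℂ) :=
    Finset.sum_congr rfl fun l _ => lgx_zpow lg (γ₀ l).ne_zero _
  rw [h3] at h2
  have hk' : (k : ℚ) ≠ 0 := by exact_mod_cast hk.ne'
  have h4 : ∑ l, ZP.lgx lg (γ₀ l : ℂ) * (-(x l : ℚ) / k) =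
      -(∑ l, (x l : ℚ) * ZP.lgx lg (γ₀ l : ℂ)) / k := by
    rw [neg_div, Finset.sum_div, ← Finset.sum_neg_distrib]
    refine Finset.sum_congr rfl fun l _ => ?_
    ring
  rw [h4, eq_div_iff hk']
  linarith

end Pool.Agent.Q136.ZP
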