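import Mathlib

set_option autoImplicit false

/-!
# Valuation rings and logarithms with rational values
-/

namespace Pool.Agent.Q136.ZP

open Finset

/-- `lg` is trivial on the units of the valuation ring `O` -/
def IsLog {L : Type*} [Field L] (O : ValuationSubring L) (lg : Additive Lˣ →+ ℚ) : Prop :=
  ∀ u : Lˣ, O.valuation (u : L) = 1 → lg (Additive.ofMul u) = 0

theorem val_eq_one_iff {L : Type*} [Field L] (O : ValuationSubring L) {x : L} (hx : x ≠ 0) :
    O.valuation x = 1 ↔ x ∈ O ∧ x⁻¹ ∈ O := by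
  rw [← O.valuation_le_one_iff, ← O.valuation_le_one_iff, map_inv₀]
  have h0 : O.valuation x ≠ 0 := (Valuation.ne_zero_iff _).2 hx
  constructor
  · intro h; rw [h]; simp
  · rintro ⟨h1, h2⟩
    refine le_antisymm h1 ?_
    exact (inv_le_one₀ (zero_lt_iff.2 h0)).1 h2

/-- extension of a valuation ring, with given algebraically independent units -/
theorem exists_ext {K L : Type*} [Field K] [Field L] [Algebra K L] (O : ValuationSubring K)
    {τ : Type*} [Fintype τ] (y : τ → L) (hy : AlgebraicIndependent K y) :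
    ∃ V : ValuationSubring L, (∀ a : K, a ≠ 0 →
      (O.valuation a = 1 ↔ V.valuation (algebraMap K L a) = 1)) ∧
      ∀ t, V.valuation (y t) = 1 := by
  classical
  have hy0 : ∀ t, y t ≠ 0 := fun t => hy.ne_zero t
  let A : Subring L := Subring.closure ((algebraMap K L '' (O : Set K)) ∪
    (Set.range y ∪ Set.range (fun t => (y t)⁻¹)))
  have hOA : ∀ a ∈ O, algebraMap K L a ∈ A := fun a ha =>
    Subring.subset_closure (Or.inl ⟨a, ha, rfl⟩)
  have hyA : ∀ t, y t ∈ A := fun t => Subring.subset_closure (Or.inr (Or.inl ⟨t, rfl⟩))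
  have hyA' : ∀ t, (y t)⁻¹ ∈ A := fun t => Subring.subset_closure (Or.inr (Or.inr ⟨t, rfl⟩))
  set Y : L := ∏ t, y t with hY
  let f : O →+* L := (algebraMap K L).comp O.subtype
  let ev : MvPolynomial τ O →+* L := MvPolynomial.eval₂Hom f y
  have hev : ∀ g, ev g = MvPolynomial.aeval y (MvPolynomial.map O.subtype g) := by
    intro g
    simp only [ev, MvPolynomial.coe_eval₂Hom, MvPolynomial.aeval_def, MvPolynomial.eval₂_map]
    rfl
  have hinj : Function.Injective ev := by
    intro g g' h
    rw [hev, hev] at h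
    exact MvPolynomial.map_injective _ Subtype.val_injective (hy h)
  let Yp : MvPolynomial τ O := ∏ t, MvPolynomial.X t
  have hYp : ev Yp = Y := by
    simp only [Yp, ev, map_prod, MvPolynomial.coe_eval₂Hom, MvPolynomial.eval₂_X, hY]
  have key : ∀ a ∈ A, ∃ (g : MvPolynomial τ O) (k : ℕ), a * Y ^ k = ev g := by
    intro a ha
    induction ha using Subring.closure_induction with
    | mem x hx =>
      rcases hx with ⟨a, ha, rfl⟩ | ⟨t, rfl⟩ | ⟨t, rfl⟩
      · refine ⟨MvPolynomial.C ⟨a, ha⟩, 0, ?_⟩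
        simp [ev, f]
      · exact ⟨MvPolynomial.X t, 0, by simp [ev]⟩
      · refine ⟨∏ s ∈ Finset.univ.erase t, MvPolynomial.X s, 1, ?_⟩
        rw [pow_one, map_prod, hY, ← Finset.mul_prod_erase _ _ (Finset.mem_univ t), ← mul_assoc,
          inv_mul_cancel₀ (hy0 t), one_mul]
        simp [ev]
    | zero => exact ⟨0, 0, by simp⟩
    | one => exact ⟨1, 0, by simp⟩
    | add a b _ _ ha hb =>
      obtain ⟨g, k, h⟩ := ha
      obtain ⟨g', k', h'⟩ := hb
      refine ⟨g * Yp ^ k' + g' * Yp ^ k, k + k', ?_⟩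
      rw [map_add, map_mul, map_mul, map_pow, map_pow, hYp, ← h, ← h', pow_add]
      ring
    | neg a _ ha =>
      obtain ⟨g, k, h⟩ := ha
      exact ⟨-g, k, by rw [map_neg, ← h]; ring⟩
    | mul a b _ _ ha hb =>
      obtain ⟨g, k, h⟩ := ha
      obtain ⟨g', k', h'⟩ := hb
      refine ⟨g * g', k + k', ?_⟩
      rw [map_mul, ← h, ← h', pow_add]
      ring
  let m : Ideal O := IsLocalRing.maximalIdeal O
  let J : Ideal A :=
    { carrier := {a | ∃ g ∈ Ideal.map (MvPolynomial.C (σ := τ)) m, ∃ k : ℕ,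
        (a : L) * Y ^ k = ev g}
      zero_mem' := ⟨0, Ideal.zero_mem _, 0, by simp⟩
      add_mem' := by
        rintro a b ⟨g, hg, k, h⟩ ⟨g', hg', k', h'⟩
        refine ⟨Yp ^ k' * g + Yp ^ k * g', Ideal.add_mem _ (Ideal.mul_mem_left _ _ hg)
          (Ideal.mul_mem_left _ _ hg'), k + k', ?_⟩
        rw [map_add, map_mul, map_mul, map_pow, map_pow, hYp, ← h, ← h', pow_add]
        push_cast
        ring
      smul_mem' := by
        rintro c a ⟨g, hg, k, h⟩
        obtain ⟨g', k', h'⟩ := key c c.2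
        refine ⟨g' * g, Ideal.mul_mem_left _ _ hg, k' + k, ?_⟩
        rw [map_mul, ← h, ← h', pow_add]
        simp only [smul_eq_mul, Subring.coe_mul]
        ring }
  have hJ : J ≠ ⊤ := by
    intro h
    have h1 : (1 : A) ∈ J := by rw [h]; trivial
    obtain ⟨g, hg, k, hk⟩ := h1
    rw [Subring.coe_one, one_mul, ← hYp, ← map_pow] at hk
    have h2 := hinj hk
    rw [← h2, MvPolynomial.mem_map_C_iff] at hg
    have h3 := hg (Finsupp.equivFunOnFinite.symm (fun _ : τ => k))
    have h4 : Yp ^ k = MvPolynomial.monomial (Finsupp.equivFunOnFinite.symm (fun _ : τ => k))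
        (1 : O) := by
      rw [MvPolynomial.monomial_eq, map_one, one_mul, Finsupp.prod_fintype _ _ (by simp),
        ← Finset.prod_pow]
      rfl
    rw [h4, MvPolynomial.coeff_monomial, if_pos rfl] at h3
    exact (Ideal.ne_top_iff_one m).1 (IsLocalRing.maximalIdeal.isMaximal O).ne_top h3
  obtain ⟨V, hAV, hV⟩ := Ideal.image_subset_nonunits_valuationSubring J hJ
  have hsmall : ∀ a : K, O.valuation a < 1 → V.valuation (algebraMap K L a) < 1 := by
    intro a ha
    have haO : a ∈ O := (O.valuation_le_one_iff a).1 ha.le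
    apply hV
    refine ⟨⟨algebraMap K L a, hOA a haO⟩, ?_, rfl⟩
    refine ⟨MvPolynomial.C ⟨a, haO⟩, Ideal.mem_map_of_mem _ ?_, 0, ?_⟩
    · exact (O.valuation_lt_one_iff ⟨a, haO⟩).2 ha
    · simp [ev, f]
  refine ⟨V, ?_, ?_⟩
  · intro a ha
    have ha' : algebraMap K L a ≠ 0 := (map_ne_zero _).2 ha
    constructor
    · intro h
      rw [val_eq_one_iff V ha', ← map_inv₀]
      rw [val_eq_one_iff O ha] at h
      exact ⟨hAV (hOA _ h.1), hAV (hOA _ h.2)⟩
    · intro h
      rcases lt_trichotomy (O.valuation a) 1 with h1 | h1 | h1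
      · exact absurd h (hsmall a h1).ne
      · exact h1
      · have h2 : O.valuation a⁻¹ < 1 := by
          rw [map_inv₀]
          exact inv_lt_one_of_one_lt₀ h1
        have h3 := hsmall _ h2
        rw [map_inv₀, map_inv₀, h, inv_one] at h3
        exact absurd h3 (lt_irrefl _)
  · intro t
    rw [val_eq_one_iff V (hy0 t)]
    exact ⟨hAV (hyA t), hAV (hyA' t)⟩

theorem baerQ : Module.Baer ℤ ℚ := by
  have : DivisibleBy ℚ ℤ := AddCommGroup.divisibleByIntOfSMulTopEqTop ℚ (by
    intro n hn
    rw [eq_top_iff]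
    rintro x -
    refine ⟨x / n, trivial, ?_⟩
    have hn' : (n : ℚ) ≠ 0 := by exact_mod_cast hn
    show n • (x / (n : ℚ)) = x
    rw [zsmul_eq_mul]
    field_simp)
  exact Module.Baer.of_divisible ℚ

/-- the subgroup of units of the valuation ring -/
def unitsSub {L : Type*} [Field L] (O : ValuationSubring L) : AddSubgroup (Additive Lˣ) where
  carrier := {u | O.valuation ((Additive.toMul u : Lˣ) : L) = 1}
  zero_mem' := by simp
  add_mem' := by
    intro a b ha hb
    show O.valuation ((Additive.toMul (a + b) : Lˣ) : L) = 1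
    have ha' : O.valuation ((Additive.toMul a : Lˣ) : L) = 1 := ha
    have hb' : O.valuation ((Additive.toMul b : Lˣ) : L) = 1 := hb
    rw [toMul_add, Units.val_mul, map_mul, ha', hb', one_mul]
  neg_mem' := by
    intro a ha
    show O.valuation ((Additive.toMul (-a) : Lˣ) : L) = 1
    have ha' : O.valuation ((Additive.toMul a : Lˣ) : L) = 1 := ha
    rw [toMul_neg, Units.val_inv_eq_inv_val, map_inv₀, ha', inv_one]

/-- extension of a logarithm -/
theorem exists_log_ext {K L : Type*} [Field K] [Field L] [Algebra K L] (O : ValuationSubring K)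
    (V : ValuationSubring L) (hV : ∀ a : K, a ≠ 0 →
      (O.valuation a = 1 ↔ V.valuation (algebraMap K L a) = 1))
    (lg : Additive Kˣ →+ ℚ) (hlg : IsLog O lg) :
    ∃ lg' : Additive Lˣ →+ ℚ, IsLog V lg' ∧
      ∀ u : Kˣ, lg' (Additive.ofMul (Units.map (algebraMap K L).toMonoidHom u)) =
        lg (Additive.ofMul u) := by
  let F : Additive Kˣ →+ Additive Lˣ :=
    MonoidHom.toAdditive (Units.map (algebraMap K L).toMonoidHom)
  have hF : unitsSub O = (unitsSub V).comap F := by
    ext u
    exact hV _ (Units.ne_zero _)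
  let f : (Additive Kˣ ⧸ unitsSub O) →+ (Additive Lˣ ⧸ unitsSub V) :=
    QuotientAddGroup.map _ _ F hF.le
  have hf : Function.Injective f := by
    rw [injective_iff_map_eq_zero]
    intro x hx
    induction x using QuotientAddGroup.induction_on with
    | H z =>
      have h1 : (QuotientAddGroup.mk (F z) : Additive Lˣ ⧸ unitsSub V) = 0 := hx
      rw [QuotientAddGroup.eq_zero_iff] at h1 ⊢
      rw [hF]
      exact h1
  let g : (Additive Kˣ ⧸ unitsSub O) →+ ℚ := QuotientAddGroup.lift _ lg (fun x hx => hlg _ hx)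
  obtain ⟨h, hh⟩ := Module.Baer.extension_property_addMonoidHom (M := Additive Kˣ ⧸ unitsSub O)
    (N := Additive Lˣ ⧸ unitsSub V) baerQ f hf g
  refine ⟨h.comp (QuotientAddGroup.mk' _), ?_, ?_⟩
  · intro u hu
    have : (QuotientAddGroup.mk (Additive.ofMul u) : Additive Lˣ ⧸ unitsSub V) = 0 := by
      rw [QuotientAddGroup.eq_zero_iff]
      exact hu
    show h (QuotientAddGroup.mk (Additive.ofMul u)) = 0
    rw [this, map_zero]
  · intro u
    have := DFunLike.congr_fun hh (QuotientAddGroup.mk (Additive.ofMul u))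
    exact this

/-- existence of logarithms -/
theorem exists_log {K : Type*} [Field K] (O : ValuationSubring K) (z : Kˣ)
    (hz : O.valuation (z : K) ≠ 1) : ∃ lg : Additive Kˣ →+ ℚ, IsLog O lg ∧
      lg (Additive.ofMul z) ≠ 0 := by
  let f : ℤ →+ (Additive Kˣ ⧸ unitsSub O) :=
    (zmultiplesHom (Additive Kˣ ⧸ unitsSub O)) (QuotientAddGroup.mk (Additive.ofMul z))
  have hf : Function.Injective f := by
    rw [injective_iff_map_eq_zero]
    intro n hn
    have h1 : (QuotientAddGroup.mk (n • Additive.ofMul z) : Additive Kˣ ⧸ unitsSub O) = 0 := hn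
    rw [QuotientAddGroup.eq_zero_iff] at h1
    have h2 : O.valuation ((z ^ n : Kˣ) : K) = 1 := h1
    rw [Units.val_zpow_eq_zpow_val, map_zpow₀] at h2
    have h0 : (0 : O.ValueGroup) ≤ O.valuation (z : K) := zero_le
    exact (zpow_eq_one_iff_right₀ h0 hz).1 h2
  obtain ⟨h, hh⟩ := Module.Baer.extension_property_addMonoidHom (M := ℤ)
    (N := Additive Kˣ ⧸ unitsSub O) baerQ f hf (Int.castAddHom ℚ)
  refine ⟨h.comp (QuotientAddGroup.mk' _), ?_, ?_⟩
  · intro u hu
    have : (QuotientAddGroup.mk (Additive.ofMul u) : Additive Kˣ ⧸ unitsSub O) = 0 := by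
      rw [QuotientAddGroup.eq_zero_iff]
      exact hu
    show h (QuotientAddGroup.mk (Additive.ofMul u)) = 0
    rw [this, map_zero]
  · have h1 := DFunLike.congr_fun hh 1
    have h2 : h (QuotientAddGroup.mk (Additive.ofMul z)) = 1 := by
      have : f 1 = QuotientAddGroup.mk (Additive.ofMul z) := by simp [f]
      rw [AddMonoidHom.comp_apply, this] at h1
      simpa using h1
    show h (QuotientAddGroup.mk (Additive.ofMul z)) ≠ 0
    rw [h2]
    exact one_ne_zero

/-- an element which is not an algebraic unit is not a unit at some valuation ring -/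
theorem exists_val_ne {K : Type*} [Field K] (z : K) (hz0 : z ≠ 0)
    (hz : ¬ (IsIntegral ℤ z ∧ IsIntegral ℤ z⁻¹)) : ∃ O : ValuationSubring K,
      O.valuation z ≠ 1 := by
  by_contra hcon
  push Not at hcon
  apply hz
  have key : ∀ w : K, (∀ O : ValuationSubring K, w ∈ O) → IsIntegral ℤ w := by
    intro w hw
    have h1 : w ∈ (⨅ V : {V : ValuationSubring K // (∅ : Set K) ⊆ V.toSubring},
        V.1.toSubring) := by
      rw [Subring.mem_iInf]
      intro V
      exact hw V.1
    rw [iInf_valuationSubring_superset] at h1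
    have h2 : IsIntegral (Subring.closure (∅ : Set K)) w := h1
    obtain ⟨p, hp, hpw⟩ := h2
    have hlift : p ∈ Polynomial.lifts (Int.castRingHom (Subring.closure (∅ : Set K))) := by
      rw [Polynomial.lifts_iff_coeff_lifts]
      intro n
      have h3 : ((p.coeff n : Subring.closure (∅ : Set K)) : K) ∈ Subring.closure (∅ : Set K) :=
        (p.coeff n).2
      have h4 : ∀ x : K, x ∈ Subring.closure (∅ : Set K) → ∃ a : ℤ, (a : K) = x := by
        intro x hx
        rw [Subring.closure_empty, Subring.mem_bot] at hx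
        exact hx
      obtain ⟨a, ha⟩ := h4 _ h3
      refine ⟨a, ?_⟩
      ext
      simpa using ha
    obtain ⟨q, hq, -, hqm⟩ := Polynomial.lifts_and_degree_eq_and_monic hlift hp
    refine ⟨q, hqm, ?_⟩
    rw [← hq] at hpw
    rw [Polynomial.eval₂_map] at hpw
    convert! hpw using 2
  exact ⟨key z fun O => ((val_eq_one_iff O hz0).1 (hcon O)).1,
    key z⁻¹ fun O => ((val_eq_one_iff O hz0).1 (hcon O)).2⟩

end Pool.Agent.Q136.ZP
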